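import Mathlib
import Pool.Agent.T6.H30.TF.Defs1

/-!
# Project UC: all split families with full 2-torsion, light definitions

As `Pool/Agent/T6/H30/TF/Defs1.lean`, with an arbitrary nonsquare `κ0` in place of `-1`.
-/

set_option autoImplicit false

namespace Pool.Agent.T6.H30.UC

open Finset Pool.Agent.W262.RK Pool.Agent.W262.RK.AT Pool.Agent.T6.H30.TF

section
variable {J ι : Type} [Fintype J] [DecidableEq J] [Fintype ι] [DecidableEq ι]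

/-- the constants of the indices of the classes of `D` are squares or `κ0` times squares -/
def KK2 (κ0 : ℤ) (cls : ι → J) (κ : ι → ℤ) (N : ι → Bool) (D : Finset J) : Prop :=
  ∀ j, cls j ∈ D → ∃ m : ℤ, m ≠ 0 ∧ κ j = (if N j = true then κ0 else 1) * m ^ 2

/-- the function `a` on the primes `p` with `(κ0 / p) = 1`, `b` on the other primes -/
noncomputable def gab2 (κ0 : ℤ) (a b : ℝ) (c : ℕ) (d : ℕ) : ℝ :=
  ∏ p ∈ d.primeFactors, (if jacobiSym κ0 p = 1 then a else b) / ((p : ℝ) - c)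

end

/-- UC-AC: the sum of `gab2` over the divisors. -/
def S_AC2 : Prop := ∀ (κ0 : ℤ) (a b : ℝ) (c : ℕ), κ0 ≠ 0 → ¬ IsSquare κ0 → 0 ≤ b → b ≤ a →
  ∃ z0 : ℕ, ∀ z, z0 ≤ z → ∃ C : ℝ, 0 ≤ C ∧
  ∀ y, z < y → ∑ d ∈ (PP z y).divisors, gab2 κ0 a b c d ≤ C * (Real.log y) ^ ((a + b) / 2)

/-- UC-REG: summation over the assignments of the primes to the indices of the classes of `D`. -/
def S_REG2 : Prop := ∀ (κ0 : ℤ) (J ι : Type) [Fintype J] [DecidableEq J] [Fintype ι]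
  [DecidableEq ι] (cls : ι → J) (w : ι → ℝ) (L : ι → ι → Bool) (κ : ι → ℤ) (N : ι → Bool)
  (c z y : ℕ) (D : Finset J) (U : Finset ι) (t : J → ℝ) (β : J → ℝ) (φ : (J → ℕ) → ℝ)
  (S : ι → Finset ℕ), κ0 ≠ 0 → κ0.natAbs ≤ z →
  (∀ i, 0 < w i) → 2 ≤ z → 2 * c ≤ z → (∀ i, (κ i).natAbs ≤ z) → KK2 κ0 cls κ N D → LD cls L D →
  (∀ j, 0 < t j) → (∀ c' ∈ D, 0 ≤ β c' ∧ β c' ≤ WS cls w U c') →
  (∀ c' ∈ D, ∀ u v : ι → ℝ, (∀ i, u i = 1 ∨ u i = -1) → (∀ i, v i = 1 ∨ v i = -1) →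
    |LS cls w L N U c' (-1) u v| ≤ β c') →
  (∀ n, 0 ≤ φ n ∧ φ n ≤ ∏ j, t j ^ n j) → (∀ i, S i ⊆ (PP z y).divisors) →
  |∑ d ∈ Fintype.piFinset (fun b => if b ∈ U ∧ cls b ∈ D then (PP z y).divisors else S b),
      HH w L κ c d * φ (nc cls d)| ≤
    (∏ b ∈ univ.filter (fun b => ¬ (b ∈ U ∧ cls b ∈ D)), ∑ m ∈ S b, gw (w b * t (cls b)) c m) *
      ∏ c' ∈ D, ∑ s ∈ (PP z y).divisors, gab2 κ0 (t c' * WS cls w U c') (t c' * β c') c s

end Pool.Agent.T6.H30.UC
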