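import Mathlib
import Pool.Agent.T6.H30.TF.Defs
import Pool.Agent.T6.H30.UC.Defs1

/-!
# Project UC: all split families of elliptic curves with full 2-torsion with balanced classes

`y² = x (x - F_0) (x - F_1)`, `F_0 - F_1 = F_2`, the `F_k` products of powers of pairwise
non-proportional linear forms, `n_k` forms in the class `k`, `2 n_k ≤ n = n_0 + n_1 + n_2`; if
`2 n_k = n` then the reduction at one of the roots of `F_k` is not split.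
-/

set_option autoImplicit false

namespace Pool.Agent.T6.H30.UC

open Finset Pool.Agent.W262.RK Pool.Agent.W262.RK.AT Pool.Agent.W307.RT Pool.Agent.TH344.DT
  Pool.Agent.TH344.JG Pool.Agent.TH344.BF Pool.Agent.TH344.GT Pool.Agent.T6.H30.TF

/-- UC-CRIT: as `TF.S_CRIT`. -/
def S_CRIT2 : Prop := ∀ (κ0 : ℤ) (J ι : Type) [Fintype J] [DecidableEq J] [Fintype ι]
  [DecidableEq ι] (cls : ι → J) (w : ι → ℝ) (L : ι → ι → Bool) (κ : ι → ℤ) (N : ι → Bool) (c : ℕ)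
  (K : ℝ) (T : Finset (J → ℝ)) (D : Finset J) (U : Finset ι), κ0 ≠ 0 → ¬ IsSquare κ0 →
  (∀ i, 0 < w i) → KK2 κ0 cls κ N D → LD cls L D → (∀ t ∈ T, ∀ j, 0 < t j) →
  Crt cls w L N K T D U →
  ∀ π : ι → Fin 4, (∀ i, π i ≠ 3) → (∀ i, π i = 2 ↔ i ∈ U) → ∀ A : ℕ, ∃ z0 : ℕ, ∀ z, z0 ≤ z →
  ∃ C' : ℝ, ∀ y, z < y →
    |∑ d ∈ Fintype.piFinset (fun b => if b ∈ U ∧ cls b ∈ D then (PP z y).divisors else
        cell z y (VV A (Real.log y)) (YY A (Real.log y)) (π b)),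
      HH w L κ c d * rho T (nn cls (om d))| ≤ C' * (Real.log y) ^ K

/-- UC-ATX: as `TF.S_ATX`. -/
def S_ATX2 : Prop := ∀ (κ0 : ℤ) (J ι : Type) [Fintype J] [DecidableEq J] [Fintype ι]
  [DecidableEq ι] (cls : ι → J) (w : ι → ℝ) (L : ι → ι → Bool) (κ : ι → ℤ) (N : ι → Bool) (c : ℕ)
  (K : ℝ) (T : Finset (J → ℝ)) (D : Finset J), κ0 ≠ 0 → ¬ IsSquare κ0 →
  (∀ i, 0 < w i ∧ w i ≤ 1 / 2) → (∀ i, L i i = false) → (∀ i, κ i ≠ 0) → 0 ≤ K →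
  (∀ t ∈ T, ∀ j, 0 < t j) → KK2 κ0 cls κ N D → LD cls L D →
  (∀ U : Finset ι, (∀ i ∈ U, ∀ j ∈ U, L i j = L j i) →
    Alt cls w L K T U ∨ Crt cls w L N K T D U) →
  ∃ z0 : ℕ, ∀ z, z0 ≤ z → ∃ C : ℝ, ∀ y, z < y →
    |∑ d ∈ Tup ι z y, (∏ i, gw (w i) c (d i)) * Sym L κ d * rho T (nn cls (om d))| ≤
      C * (Real.log y) ^ K

/-- the indices of the class `j0` with the constant `κ0` -/
def NJ {J : Type} [DecidableEq J] (j0 : J) {k : ℕ} (i : IV J k PA) : Bool :=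
  decide (i.1.1 = j0) && dtp i.1.2.1 i.1.2.2

/-- the number of the forms in the class `c` -/
def nf {J : Type} [Fintype J] (cls : J → Fin 4) (c : Fin 4) : ℕ :=
  (univ.filter (fun j => cls j = c)).card

/-- UC-CMB: the unlinked sets. -/
def S_CMBG : Prop := ∀ (J : Type) [Fintype J] [DecidableEq J] (cls : J → Fin 4) (j0 : J) (k : ℕ),
  (∀ j, cls j ≠ 3) → (∀ c, c ≠ 3 → 1 ≤ nf cls c ∧ 2 * nf cls c ≤ Fintype.card J) →
  (∀ c, c ≠ 3 → 2 * nf cls c = Fintype.card J → cls j0 = c) → 1 ≤ k →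
  ∃ T : Finset (J → ℝ), (∀ t ∈ T, ∀ j, 0 < t j) ∧ (∀ t ∈ T, 1 < ∏ j, t j) ∧
  ∀ U : Finset (IV J k PA), (∀ i ∈ U, ∀ j ∈ U, LV (ag cls) i j = LV (ag cls) j i) →
    Alt (fun i : IV J k PA => i.1.1) (fun _ => 1 / 2 ^ k) (LV (ag cls)) (Fintype.card J) T U ∨
    (2 * nf cls (cls j0) = Fintype.card J ∧
      Crt (fun i : IV J k PA => i.1.1) (fun _ => 1 / 2 ^ k) (LV (ag cls)) (NJ j0)
        (Fintype.card J) T {j0} U)

/-- UC-MAF: the main average. -/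
def S_MAFG : Prop := ∀ (J : Type) [Fintype J] [DecidableEq J] [Nonempty J] (cls : J → Fin 4)
  (κ : J → ℤ) (k : ℕ), (∀ j, cls j ≠ 3) →
  (∀ c, c ≠ 3 → 1 ≤ nf cls c ∧ 2 * nf cls c ≤ Fintype.card J) →
  (∀ c, c ≠ 3 → 2 * nf cls c = Fintype.card J → ∃ j, cls j = c ∧ ¬ IsSquare (κ j)) →
  (∀ j, κ j ≠ 0) → 1 ≤ k → ∃ T : Finset (J → ℝ), (∀ t ∈ T, ∀ j, 0 < t j) ∧
  (∀ t ∈ T, 1 < ∏ j, t j) ∧ MAFK (ag cls) κ k T

end Pool.Agent.T6.H30.UC
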