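import Mathlib
import Pool.Agent.T6.H30.UC.Defs
import Pool.Agent.TH344.BF.Main
import Pool.Agent.X257.AE.BoxL

/-! Project UC: the weighted moments in short squares. -/

set_option autoImplicit false

namespace Pool.Agent.T6.H30.UC

open Finset Pool.Agent.W262.RK Pool.Agent.W307.RT Pool.Agent.W307.SE Pool.Agent.TH344.DT
  Pool.Agent.TH344.JG Pool.Agent.TH344.BF Pool.Agent.TH344.GT Pool.Agent.X257.AE.BL
open Pool.Agent.X257.AE.BT (sum_Ioc_shift)

variable {J : Type} [Fintype J] [DecidableEq J]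

lemma WB_nonneg (cls : J → Fin 4) (a : Fin 3 → ℤ) (μ : J → ℕ) (α β : J → ℤ) (k : ℕ)
    {T : Finset (J → ℝ)} (hT : ∀ t ∈ T, ∀ j, 0 < t j) (t : ℤ × ℤ) :
    0 ≤ WB cls a μ α β k T t := by
  unfold WB
  split_ifs
  · exact mul_nonneg (by positivity) (rho_nonneg hT _)
  · exact le_rfl

/-- a shear that makes all the first coefficients nonzero -/
lemma exists_shear (α β : J → ℤ) (h0 : ∀ j, ¬ (α j = 0 ∧ β j = 0)) :
    ∃ q : ℕ, ∀ j, α j + (q : ℤ) * β j ≠ 0 := by
  classical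
  obtain ⟨q, hq⟩ := Infinite.exists_notMem_finset
    (univ.image (fun j : J => (-(α j) / β j).toNat))
  refine ⟨q, fun j hj => ?_⟩
  by_cases hb : β j = 0
  · apply h0 j
    rw [hb, mul_zero, add_zero] at hj
    exact ⟨hj, hb⟩
  · apply hq
    rw [mem_image]
    refine ⟨j, mem_univ _, ?_⟩
    have h1 : -(α j) = (q : ℤ) * β j := by linarith
    rw [h1, Int.mul_ediv_cancel _ hb, Int.toNat_natCast]

lemma fv_shear (α β : J → ℤ) (q u v : ℤ) (j : J) :
    fv (fun j => α j + q * β j) β u (v - q * u) j = fv α β u v j := by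
  unfold fv
  ring

lemma Res_shear (α β : J → ℤ) (q : ℤ) (j l : J) :
    Res (fun j => α j + q * β j) β j l = Res α β j l := by
  unfold Res
  ring

lemma kapM_shear (cls : J → Fin 4) (a : Fin 3 → ℤ) (μ : J → ℕ) (α β : J → ℤ) (q : ℤ) (j : J) :
    kapM cls a μ (fun j => α j + q * β j) β j = kapM cls a μ α β j := by
  unfold kapM
  simp only [Res_shear]

lemma WB_shear (cls : J → Fin 4) (a : Fin 3 → ℤ) (μ : J → ℕ) (α β : J → ℤ) (k : ℕ)
    (T : Finset (J → ℝ)) (q : ℤ) (t : ℤ × ℤ) :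
    WB cls a μ α β k T t =
      WB cls a μ (fun j => α j + q * β j) β k T (t.1, t.2 - q * t.1) := by
  have h1 : fv (fun j => α j + q * β j) β t.1 (t.2 - q * t.1) = fv α β t.1 t.2 :=
    funext fun j => fv_shear α β q t.1 t.2 j
  have h2 : IsCoprime t.1 (t.2 - q * t.1) ↔ IsCoprime t.1 t.2 := by
    have : t.2 - q * t.1 = t.2 + t.1 * (-q) := by ring
    rw [this]
    exact IsCoprime.add_mul_left_right_iff
  unfold WB omB
  simp only [h1, h2]

/-- the weighted moments over short squares -/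
theorem box_gen (hM : S_MAFG) [Nonempty J] (cls : J → Fin 4) (a : Fin 3 → ℤ) (μ : J → ℕ)
    (α β : J → ℤ) (hcls : ∀ j, cls j ≠ 3) (ha : ∀ k, a k ≠ 0) (hμ : ∀ j, 1 ≤ μ j)
    (h0 : ∀ j, ¬ (α j = 0 ∧ β j = 0)) (hres : ∀ j l, j ≠ l → Res α β j l ≠ 0)
    (hev : ∀ k, Even (∑ l ∈ fc cls k, μ l))
    (hpar : ∀ j, Odd (μ j) ∨ IsSquare (kapM cls a μ α β j))
    (hF : ∀ u v : ℤ, FM cls a μ (fv α β u v) 0 - FM cls a μ (fv α β u v) 1 =
      FM cls a μ (fv α β u v) 2)
    (hbal : ∀ c, c ≠ 3 → 1 ≤ nf cls c ∧ 2 * nf cls c ≤ Fintype.card J)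
    (hcr : ∀ c, c ≠ 3 → 2 * nf cls c = Fintype.card J →
      ∃ j, cls j = c ∧ ¬ IsSquare (kapM cls a μ α β j)) {k : ℕ} (hk : 1 ≤ k) :
    ∃ T : Finset (J → ℝ), (∀ t ∈ T, ∀ j, 0 < t j) ∧ (∀ t ∈ T, 1 < ∏ j, t j) ∧
      ∀ L : ℕ, 1 ≤ L → ∃ C : ℝ, 0 ≤ C ∧ BoxAvgL L (WB cls a μ α β k T) C 1 := by
  classical
  have hA := avgb
  obtain ⟨q, hq⟩ := exists_shear α β h0
  have hkap : ∀ j, kapM cls a μ α β j ≠ 0 := by
    intro j
    unfold kapM
    refine mul_ne_zero ?_ (mul_ne_zero (ha _) (prod_ne_zero_iff.2 fun l' hl' => ?_))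
    · unfold sgM
      split_ifs <;> norm_num
    · apply pow_ne_zero
      apply hres
      intro h
      subst h
      have h1 := (mem_filter.1 hl').2
      have h3 := hcls j
      revert h1 h3
      unfold cpM
      generalize cls j = c
      revert c
      decide
  obtain ⟨T, hT1, hT2, hT3⟩ := hM J cls (kapM cls a μ α β) k hcls hbal hcr hkap hk
  refine ⟨T, hT1, hT2, fun L hL => ?_⟩
  have hkeq : kapM cls a μ (fun j => α j + (q : ℤ) * β j) β = kapM cls a μ α β :=
    funext fun j => kapM_shear cls a μ α β q j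
  obtain ⟨C, hC0, hC⟩ := hA J cls a μ (fun j => α j + (q : ℤ) * β j) β hcls ha hμ hq
    (fun j l hjl => by rw [Res_shear]; exact hres j l hjl)
    (fun j => by rw [kapM_shear]; exact hkap j) hev
    (fun j => by rw [kapM_shear]; exact hpar j) (fun u v => by
      have h1 : fv (fun j => α j + (q : ℤ) * β j) β u v = fv α β u (v + q * u) := by
        funext j
        unfold fv
        ring
      rw [h1]
      exact hF _ _) k T hT1 (by rw [hkeq]; exact hT3) (L + 1)
  refine ⟨C * (q + 1) ^ 2, by positivity, fun X U V hX hU hV => ?_⟩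
  set X' := (q + 1) * X with hX'
  set V' := V - q * U - q * X with hV'
  have hXX' : X ≤ X' := by rw [hX']; nlinarith
  have h1 : ∑ t ∈ Ioc U (U + X) ×ˢ Ioc V (V + X), WB cls a μ α β k T t ≤
      ∑ s ∈ Ioc U (U + X') ×ˢ Ioc V' (V' + X'),
        WB cls a μ (fun j => α j + (q : ℤ) * β j) β k T s := by
    calc ∑ t ∈ Ioc U (U + X) ×ˢ Ioc V (V + X), WB cls a μ α β k T t
        = ∑ t ∈ Ioc U (U + X) ×ˢ Ioc V (V + X),
            WB cls a μ (fun j => α j + (q : ℤ) * β j) β k T (t.1, t.2 - q * t.1) :=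
          sum_congr rfl fun t _ => WB_shear cls a μ α β k T q t
      _ = ∑ s ∈ (Ioc U (U + (X : ℤ)) ×ˢ Ioc V (V + (X : ℤ))).image
            (fun t : ℤ × ℤ => (t.1, t.2 - q * t.1)),
            WB cls a μ (fun j => α j + (q : ℤ) * β j) β k T s := by
          rw [sum_image]
          intro t _ t' _ h
          obtain ⟨h3, h4⟩ := Prod.mk.inj h
          rw [h3] at h4
          exact Prod.ext h3 (by linarith)
      _ ≤ _ := by
          apply sum_le_sum_of_subset_of_nonneg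
          · intro s hs
            rw [mem_image] at hs
            obtain ⟨t, ht, rfl⟩ := hs
            rw [mem_product, mem_Ioc, mem_Ioc] at ht ⊢
            obtain ⟨⟨a1, a2⟩, a3, a4⟩ := ht
            dsimp only
            have h5 : (q : ℤ) * t.1 ≤ q * (U + X) :=
              mul_le_mul_of_nonneg_left a2 (Int.natCast_nonneg q)
            have h6 : (q : ℤ) * U ≤ q * t.1 :=
              mul_le_mul_of_nonneg_left a1.le (Int.natCast_nonneg q)
            have h7 : ((X' : ℕ) : ℤ) = q * X + X := by rw [hX']; push_cast; ring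
            have h8 : (0 : ℤ) ≤ q * X := by positivity
            refine ⟨⟨a1, by rw [h7]; linarith⟩, ?_, ?_⟩
            · rw [hV']; nlinarith
            · rw [hV', h7]; linarith
          · intro s _ _
            exact WB_nonneg _ _ _ _ _ _ hT1 s
  have hX1 : (1 : ℤ) ≤ X := by exact_mod_cast hX
  have hq0 : (0 : ℤ) ≤ q := Int.natCast_nonneg q
  have hpow : (X : ℤ) ^ L ≤ (X' : ℤ) ^ (L + 1) := by
    have h5 : (X : ℤ) ≤ X' := by exact_mod_cast hXX'
    calc (X : ℤ) ^ L ≤ (X : ℤ) ^ (L + 1) := pow_le_pow_right₀ hX1 (by omega)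
      _ ≤ _ := pow_le_pow_left₀ (by linarith) h5 (L + 1)
  have hU' : U.natAbs ≤ X' ^ (L + 1) := by
    have h5 := hU.trans hpow
    rw [Int.abs_eq_natAbs] at h5
    exact_mod_cast h5
  have hV'' : V'.natAbs ≤ X' ^ (L + 1) := by
    have h4 : (X : ℤ) ≤ (X : ℤ) ^ L := le_self_pow₀ hX1 (by omega)
    have h5 : |V'| ≤ (2 * q + 1) * (X : ℤ) ^ L := by
      have e1 : |V'| ≤ |V| + |(q : ℤ) * U| + |(q : ℤ) * X| := by
        rw [hV']
        have := abs_sub (V - q * U) ((q : ℤ) * X)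
        have := abs_sub V ((q : ℤ) * U)
        linarith
      rw [abs_mul, abs_mul, Nat.abs_cast, Nat.abs_cast] at e1
      have e2 : (q : ℤ) * |U| ≤ q * (X : ℤ) ^ L := mul_le_mul_of_nonneg_left hU hq0
      have e3 : (q : ℤ) * X ≤ q * (X : ℤ) ^ L := mul_le_mul_of_nonneg_left h4 hq0
      linarith
    have h6 : (2 * q + 1 : ℤ) * (X : ℤ) ^ L ≤ (X' : ℤ) ^ (L + 1) := by
      have e1 : ((X' : ℕ) : ℤ) ^ (L + 1) = (q + 1) ^ (L + 1) * (X : ℤ) ^ (L + 1) := by
        rw [hX', Nat.cast_mul, mul_pow]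
        push_cast
        rfl
      rw [e1]
      have e2 : (2 * q + 1 : ℤ) ≤ (q + 1) ^ (L + 1) := by
        have e3 : (2 * q + 1 : ℤ) ≤ (q + 1) ^ 2 := by nlinarith
        exact e3.trans (pow_le_pow_right₀ (by linarith) (by omega))
      exact mul_le_mul e2 (pow_le_pow_right₀ hX1 (by omega)) (by positivity) (by positivity)
    have h7 := h5.trans h6
    rw [Int.abs_eq_natAbs] at h7
    exact_mod_cast h7
  have h3 := hC U V' X' (by omega) hU' hV''
  rw [sum_Ioc_shift (WB cls a μ (fun j => α j + (q : ℤ) * β j) β k T)] at h1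
  refine h1.trans (h3.trans (le_of_eq ?_))
  rw [hX']
  push_cast
  ring

end Pool.Agent.T6.H30.UC
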