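import Pool.Agent.T6.H30.UC.Defs1
import Pool.Agent.T6.H30.TF.AC
import Pool.Agent.W655.RK.Full
import Pool.Agent.W216.RT.UB4
import Pool.Agent.Helper919.NonRes

/-!
# Project UC, module AC2: the sum of a quadratic character over the primes, and of `gab2`

The first part follows `Pool/Agent/W216/RT/UB4.lean`.
-/

set_option autoImplicit false

namespace Pool.Agent.T6.H30.UC

namespace ModAC2

open Finset Filter Topology
open Pool.Agent.W262.RK Pool.Agent.W586.RK.UB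

/-- the character -/
noncomputable def fx (κ : ℤ) : ℕ →*₀ ℝ := ff κ 1 false

theorem fx_abs (κ : ℤ) (n : ℕ) : |fx κ n| ≤ 1 := ff_abs κ 1 false n

theorem fx_per (κ : ℤ) : Function.Periodic (fx κ) (4 * κ.natAbs * 1) := ff_per κ 1 false

theorem fx_sum (κ : ℤ) (hκ : κ ≠ 0) (hsq : ¬ IsSquare κ) :
    ∑ n ∈ range (4 * κ.natAbs * 1), fx κ n = 0 := by
  obtain ⟨d, hd, hj⟩ := Pool.Agent.Helper919.exists_jacobi_neg_one κ hsq
  have hq : 4 * κ.natAbs * 1 ≠ 0 := by
    have := Int.natAbs_pos.2 hκ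
    omega
  have hd0 : d ≠ 0 := by
    rintro rfl
    simp at hd
  have hcop : Nat.Coprime d (4 * κ.natAbs * 1) := by
    rw [mul_one]
    refine Nat.Coprime.mul_right ?_ ?_
    · have h2 : Nat.Coprime d 2 := Nat.Coprime.symm ((Nat.coprime_two_left).2 hd)
      exact Nat.Coprime.pow_right 2 h2
    · have h1 : jacobiSym κ d ≠ 0 := by rw [hj]; norm_num
      have : NeZero d := ⟨hd0⟩
      by_contra hcon
      apply h1
      rw [jacobiSym.eq_zero_iff_not_coprime]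
      intro h4
      apply hcon
      rw [Nat.coprime_comm]
      exact h4
  refine sum_period hq (fx_per κ) hcop fun n => ?_
  have h5 : fx κ d = -1 := by
    rw [fx, ff_apply, if_pos hd]
    unfold Jr x4
    rw [hj]
    simp
  rw [map_mul, h5]
  ring

theorem main (κ : ℤ) (hκ : κ ≠ 0) (hsq : ¬ IsSquare κ) : ∃ C : ℝ, ∀ y : ℕ, 3 ≤ y → ∑ p ∈ (Icc 1 y).filter Nat.Prime, fx κ p / (p : ℝ) ≤ C := by
  obtain ⟨C1, hC1⟩ := Pool.Agent.Helper256.KM.mertens_log
  obtain ⟨C2, hC2⟩ := Pool.Agent.Helper256.KM.mertens_inv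
  have hC10 : 0 ≤ C1 := (abs_nonneg _).trans (hC1 1 le_rfl)
  set K : ℝ := Real.log ((4 * κ.natAbs * 1 : ℕ) : ℝ) + 2 with hK
  have hq1 : 1 ≤ 4 * κ.natAbs * 1 := by
    have := Int.natAbs_pos.2 hκ
    omega
  have hlog4 : 0 ≤ Real.log ((4 * κ.natAbs * 1 : ℕ) : ℝ) :=
    Real.log_nonneg (by exact_mod_cast hq1)
  have hK0 : 0 < K := by linarith
  have hl3 : 1 ≤ Real.log 3 := by
    rw [Real.le_log_iff_exp_le (by norm_num)]
    linarith [Real.exp_one_lt_d9]
  refine ⟨Real.log 2 + Real.log K + C2 + 2 + 2 * C1, ?_⟩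
  intro y hy3
  have hLy : 1 ≤ Real.log y :=
    hl3.trans (Real.log_le_log (by norm_num) (by exact_mod_cast hy3))
  set s : ℝ := 1 / Real.log y with hs
  have hLy0 : 0 < Real.log y := by linarith
  have hs0 : 0 < s := by positivity
  have hs1 : s ≤ 1 := by rw [hs, div_le_one hLy0]; exact hLy
  set T : Finset Nat.Primes := Finset.subtype Nat.Prime (Icc 1 y) with hT
  have hconv : ∀ g : ℕ → ℝ, ∑ p ∈ T, g (p : ℕ) = ∑ p ∈ (Icc 1 y).filter Nat.Prime, g p := by
    intro g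
    exact Finset.sum_subtype_eq_sum_filter (s := Icc 1 y) (p := Nat.Prime) g
  obtain ⟨hsum, hEL⟩ := euler_lower (fx κ) (fx_abs κ) s hs0 hs1 T
  have hLb := L_bound hq1 (fx_abs κ) (fx_per κ) (fx_sum κ hκ hsq) s hs0 hsum
  rw [← hK] at hLb
  have h2s : 2 / s = 2 * Real.log y := by
    rw [hs]; field_simp
  rw [h2s] at hEL
  have h1 : ∑ p ∈ T, (1 + fx κ (p : ℕ)) * ((p : ℕ) : ℝ) ^ (-(1 + s)) ≤
      Real.log 2 + Real.log (Real.log y) + Real.log K := by
    have h2 := hEL.trans (mul_le_mul_of_nonneg_left hLb (by positivity))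
    rw [← Real.log_mul (by positivity) (by linarith),
      ← Real.log_mul (by positivity) hK0.ne']
    rw [Real.le_log_iff_exp_le (by positivity)]
    exact h2
  have h3 : ∑ p ∈ T, (1 + fx κ (p : ℕ)) * ((p : ℕ) : ℝ) ^ (-(1 + s)) ≥
      ∑ p ∈ (Icc 1 y).filter Nat.Prime, ((1 : ℝ) / p + fx κ p / p - 2 * s * (Real.log p / p)) := by
    rw [ge_iff_le, ← hconv (fun p => (1 : ℝ) / p + fx κ p / p - 2 * s * (Real.log p / p))]
    refine sum_le_sum fun p _ => ?_
    have hp1 : (1 : ℝ) < ((p : ℕ) : ℝ) := by exact_mod_cast p.2.one_lt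
    have hp0 : (0 : ℝ) < ((p : ℕ) : ℝ) := by linarith
    have hlp : 0 < Real.log ((p : ℕ) : ℝ) := Real.log_pos hp1
    have h4 : ((p : ℕ) : ℝ) ^ (-(1 + s)) = ((p : ℕ) : ℝ) ^ (-s) / (p : ℕ) := by
      rw [show -(1 + s) = -s - 1 by ring, Real.rpow_sub hp0, Real.rpow_one]
    have h5 : 1 - s * Real.log ((p : ℕ) : ℝ) ≤ ((p : ℕ) : ℝ) ^ (-s) := by
      rw [Real.rpow_def_of_pos hp0]
      have := Real.add_one_le_exp (Real.log ((p : ℕ) : ℝ) * -s)
      linarith
    have h6 := abs_le.1 (fx_abs κ p)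
    have h7 : (1 + fx κ (p : ℕ)) * (1 - s * Real.log ((p : ℕ) : ℝ)) ≤
        (1 + fx κ (p : ℕ)) * ((p : ℕ) : ℝ) ^ (-s) := mul_le_mul_of_nonneg_left h5 (by linarith)
    have h8 : (1 + fx κ (p : ℕ)) * (s * Real.log ((p : ℕ) : ℝ)) ≤ 2 * (s * Real.log ((p : ℕ) : ℝ)) :=
      mul_le_mul_of_nonneg_right (by linarith) (by positivity)
    have h9 : (1 + fx κ (p : ℕ) - 2 * (s * Real.log ((p : ℕ) : ℝ))) ≤
        (1 + fx κ (p : ℕ)) * ((p : ℕ) : ℝ) ^ (-s) := by linarith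
    calc (1 : ℝ) / (p : ℕ) + fx κ p / (p : ℕ) - 2 * s * (Real.log (p : ℕ) / (p : ℕ))
        = (1 + fx κ (p : ℕ) - 2 * (s * Real.log ((p : ℕ) : ℝ))) / (p : ℕ) := by ring
      _ ≤ ((1 + fx κ (p : ℕ)) * ((p : ℕ) : ℝ) ^ (-s)) / (p : ℕ) :=
          div_le_div_of_nonneg_right h9 hp0.le
      _ = _ := by rw [h4]; ring
  rw [sum_sub_distrib, sum_add_distrib, ← mul_sum] at h3
  have h10 := (abs_le.1 (hC2 y hy3)).1
  have h11 := (abs_le.1 (hC1 y (by omega))).2
  have h12 : 2 * s * ∑ p ∈ (Icc 1 y).filter Nat.Prime, Real.log p / p ≤ 2 + 2 * C1 := by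
    have h13 : 2 * s * ∑ p ∈ (Icc 1 y).filter Nat.Prime, Real.log p / p ≤
        2 * s * (Real.log y + C1) := mul_le_mul_of_nonneg_left (by linarith) (by positivity)
    have h14 : 2 * s * (Real.log y + C1) = 2 + 2 * (s * C1) := by
      rw [hs]; field_simp
    have h15 : s * C1 ≤ 1 * C1 := mul_le_mul_of_nonneg_right hs1 hC10
    linarith
  linarith

theorem ubk (κ : ℤ) (hκ : κ ≠ 0) (hsq : ¬ IsSquare κ) (z : ℕ) (hz : 2 ≤ z) : ∃ C : ℝ, ∀ y : ℕ,
    z < y → ∑ p ∈ PS z y, Jr κ p / (p : ℝ) ≤ C := by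
  obtain ⟨C, hC⟩ := main κ hκ hsq
  have hfx : ∀ p : ℕ, Odd p → fx κ p = Jr κ p := by
    intro p hp
    rw [fx, ff_apply, if_pos hp]
    unfold Jr x4
    simp
  refine ⟨|C| + z + 3, ?_⟩
  intro y hzy
  have hb : ∀ p : ℕ, 1 ≤ p → |fx κ p / (p : ℝ)| ≤ 1 := by
    intro p hp
    have hp0 : (1 : ℝ) ≤ p := by exact_mod_cast hp
    rw [abs_div, abs_of_pos (by linarith : (0 : ℝ) < p), div_le_one (by linarith)]
    exact (fx_abs κ p).trans hp0
  have hy : 3 ≤ y := by omega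
  · have hmain := hC y hy
    have hsplit : ∑ p ∈ (Icc 1 y).filter Nat.Prime, fx κ p / (p : ℝ) =
        ∑ p ∈ (Icc 1 z).filter Nat.Prime, fx κ p / (p : ℝ) + ∑ p ∈ PS z y, fx κ p / (p : ℝ) := by
      rw [← sum_union]
      · refine sum_congr ?_ fun _ _ => rfl
        ext p
        simp only [PS, mem_union, mem_filter, mem_Icc, mem_Ioc]
        constructor
        · rintro ⟨⟨h1, h2⟩, h3⟩
          rcases Nat.lt_or_ge z p with h4 | h4
          · right; exact ⟨⟨h4, h2⟩, h3⟩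
          · left; exact ⟨⟨h1, h4⟩, h3⟩
        · rintro (⟨⟨h1, h2⟩, h3⟩ | ⟨⟨h1, h2⟩, h3⟩)
          · exact ⟨⟨h1, by omega⟩, h3⟩
          · exact ⟨⟨by omega, h2⟩, h3⟩
      · rw [Finset.disjoint_left]
        intro p h1 h2
        simp only [PS, mem_filter, mem_Icc, mem_Ioc] at h1 h2
        omega
    have hsmall : -(z : ℝ) ≤ ∑ p ∈ (Icc 1 z).filter Nat.Prime, fx κ p / (p : ℝ) := by
      have h16 : ∀ p ∈ (Icc 1 z).filter Nat.Prime, (-1 : ℝ) ≤ fx κ p / (p : ℝ) := by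
        intro p hp
        rw [mem_filter, mem_Icc] at hp
        exact (abs_le.1 (hb p hp.1.1)).1
      have h17 := Finset.card_nsmul_le_sum _ _ _ h16
      have h18 : ((Icc 1 z).filter Nat.Prime).card ≤ z := by
        refine (card_filter_le _ _).trans ?_
        simp
      have h19 : (((Icc 1 z).filter Nat.Prime).card : ℝ) ≤ z := by exact_mod_cast h18
      rw [nsmul_eq_mul] at h17
      linarith
    have hfin : ∑ p ∈ PS z y, Jr κ p / (p : ℝ) = ∑ p ∈ PS z y, fx κ p / (p : ℝ) := by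
      refine sum_congr rfl fun p hp => ?_
      simp only [PS, mem_filter, mem_Ioc] at hp
      rw [hfx p (hp.2.odd_of_ne_two (by omega))]
    rw [hfin]
    have := le_abs_self C
    linarith

end ModAC2

open Finset Pool.Agent.W262.RK Pool.Agent.T6.H30.TF

theorem ac2 : S_AC2 := by
  intro κ0 a b c hκ hsq hb hab
  obtain ⟨C0, hC0, hmer⟩ := Pool.Agent.W655.RK.mertens
  obtain ⟨K, hK, hsum2⟩ := Pool.Agent.W655.RK.sum_inv_sq
  have ha : 0 ≤ a := hb.trans hab
  refine ⟨2 * c + κ0.natAbs + 2, fun z hz => ?_⟩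
  obtain ⟨C1, hC1⟩ := ModAC2.ubk κ0 hκ hsq z (by omega)
  have hz2 : 2 ≤ z := by omega
  have hzc : 2 * c + 2 ≤ z := by omega
  set φ : ℕ → ℝ := fun p => (if jacobiSym κ0 p = 1 then a else b) / ((p : ℝ) - c) with hφ
  set B : ℝ := (a + b) / 2 * C0 + (a - b) / 2 * C1 + (2 * a * c) * K with hB
  have hg0 : ∀ p : ℕ, 0 ≤ (if jacobiSym κ0 p = 1 then a else b) ∧
      (if jacobiSym κ0 p = 1 then a else b) ≤ a := by
    intro p
    split_ifs
    · exact ⟨ha, le_rfl⟩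
    · exact ⟨hb, hab⟩
  have hφ0 : ∀ y, ∀ p ∈ PS z y, 0 ≤ φ p := fun y p hp =>
    (Pool.Agent.T6.H30.TF.ModAC.weight _ c z p (hg0 p).1 hzc (Pool.Agent.W655.RK.PS_lt hp)).1
  have hval : ∀ p : ℕ, p.Prime → z < p → (if jacobiSym κ0 p = 1 then a else b) =
      (a + b) / 2 + (a - b) / 2 * Jr κ0 p := by
    intro p hp hzp
    have : Fact p.Prime := ⟨hp⟩
    have h1 : jacobiSym κ0 p = 1 ∨ jacobiSym κ0 p = -1 := by
      rw [← jacobiSym.legendreSym.to_jacobiSym]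
      refine legendreSym.eq_one_or_neg_one p ?_
      intro h2
      rw [ZMod.intCast_zmod_eq_zero_iff_dvd] at h2
      have h3 := Int.natAbs_dvd_natAbs.2 h2
      have h4 := Nat.le_of_dvd (Int.natAbs_pos.2 hκ) h3
      rw [Int.natAbs_natCast] at h4
      omega
    unfold Jr
    rcases h1 with h1 | h1
    · rw [if_pos h1, h1]
      push_cast
      ring
    · rw [if_neg (by rw [h1]; norm_num), h1]
      push_cast
      ring
  have hsum : ∀ y : ℕ, z < y → ∑ p ∈ PS z y, φ p ≤ (a + b) / 2 * Real.log (Real.log y) + B := by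
    intro y hy
    have h1 : ∀ p ∈ PS z y, φ p ≤ (a + b) / 2 * (1 / (p : ℝ)) +
        (a - b) / 2 * (Jr κ0 p / (p : ℝ)) + (2 * a * c) * (1 / (p : ℝ) ^ 2) := by
      intro p hp
      have hlt := Pool.Agent.W655.RK.PS_lt hp
      have hpr := Pool.Agent.W655.RK.PS_prime hp
      have h2 := (Pool.Agent.T6.H30.TF.ModAC.weight _ c z p (hg0 p).1 hzc hlt).2
      have h3 : (2 * (if jacobiSym κ0 p = 1 then a else b) * c) * (1 / (p : ℝ) ^ 2) ≤
          (2 * a * c) * (1 / (p : ℝ) ^ 2) := by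
        have h4 : (0 : ℝ) ≤ c := Nat.cast_nonneg c
        have h5 := (hg0 p).2
        have h6 : (0 : ℝ) ≤ 1 / (p : ℝ) ^ 2 := by positivity
        apply mul_le_mul_of_nonneg_right _ h6
        exact mul_le_mul_of_nonneg_right (by linarith) h4
      have h7 : (if jacobiSym κ0 p = 1 then a else b) * (1 / (p : ℝ)) =
          (a + b) / 2 * (1 / (p : ℝ)) + (a - b) / 2 * (Jr κ0 p / (p : ℝ)) := by
        rw [hval p hpr hlt]
        ring
      calc φ p ≤ _ := h2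
        _ ≤ _ := by rw [h7]; linarith
    calc ∑ p ∈ PS z y, φ p ≤ ∑ p ∈ PS z y, ((a + b) / 2 * (1 / (p : ℝ)) +
          (a - b) / 2 * (Jr κ0 p / (p : ℝ)) + (2 * a * c) * (1 / (p : ℝ) ^ 2)) :=
          Finset.sum_le_sum h1
      _ = (a + b) / 2 * ∑ p ∈ PS z y, 1 / (p : ℝ) + (a - b) / 2 * ∑ p ∈ PS z y, Jr κ0 p / (p : ℝ)
          + (2 * a * c) * ∑ p ∈ PS z y, 1 / (p : ℝ) ^ 2 := by
          rw [Finset.sum_add_distrib, Finset.sum_add_distrib, Finset.mul_sum, Finset.mul_sum,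
            Finset.mul_sum]
      _ ≤ (a + b) / 2 * (Real.log (Real.log y) + C0) + (a - b) / 2 * C1 + (2 * a * c) * K := by
          have h4 : (0 : ℝ) ≤ c := Nat.cast_nonneg c
          refine add_le_add (add_le_add (mul_le_mul_of_nonneg_left (hmer z y (by omega))
            (by linarith)) (mul_le_mul_of_nonneg_left (hC1 y hy) (by linarith)))
            (mul_le_mul_of_nonneg_left (hsum2 _) (by positivity))
      _ = _ := by rw [hB]; ring
  refine ⟨Real.exp B, (Real.exp_pos _).le, fun y hy => ?_⟩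
  have hlog : 0 < Real.log y := Real.log_pos (by exact_mod_cast (by omega : 1 < y))
  have h0 : ∀ d, gab2 κ0 a b c d = ∏ p ∈ d.primeFactors, φ p := fun d => rfl
  simp only [h0]
  unfold PP
  rw [Pool.Agent.W655.RK.sum_mult (PS z y) (fun p hp => Pool.Agent.W655.RK.PS_prime hp) φ]
  refine (Pool.Agent.W655.RK.prod_le_exp _ _ fun p hp => by
    have := hφ0 y p hp; linarith).trans ?_
  rw [Real.rpow_def_of_pos hlog, ← Real.exp_add, Real.exp_le_exp]
  have := hsum y hy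
  linarith

end Pool.Agent.T6.H30.UC
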