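import Pool.Agent.T6.H30.UC.Defs
import Pool.Agent.T6.H30.TF.Cmb

/-!
# Project UC, module CMBG: the unlinked sets for balanced classes
-/

set_option autoImplicit false
set_option linter.unusedSectionVars false

namespace Pool.Agent.T6.H30.UC

open Finset Pool.Agent.W262.RK Pool.Agent.W262.RK.AT Pool.Agent.W307.RT Pool.Agent.W307.FK
  Pool.Agent.TH344.DT Pool.Agent.TH344.JG Pool.Agent.TH344.BF Pool.Agent.TH344.GT
  Pool.Agent.T6.H30.TF

namespace CmbG

open Pool.Agent.TH344.DT.CmbX Pool.Agent.TH344.JG.CmbV Pool.Agent.T6.H30.TF.CmbF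

section
variable {J : Type} [Fintype J] [DecidableEq J] {k : ℕ}

/-- the quadratic character of a class -/
noncomputable def sqJ (cls : J → Fin 4) (c : J) (u v : IV J k PA → ℝ)
    (a : (Fin k → Bool) × (Fin k → Bool)) : ℝ :=
  (chi k a.1 a.2 : ℝ) * ∏ i : IV J k PA,
    ((if (ag cls i.1.1 c && dtp i.1.2.1 a.2) = true then u i else 1) *
      (if (ag cls c i.1.1 && dtp a.1 i.1.2.2) = true then v i else 1))

theorem sqJ_or (cls : J → Fin 4) (c : J) {u v : IV J k PA → ℝ} (hu : ∀ i, u i = 1 ∨ u i = -1)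
    (hv : ∀ i, v i = 1 ∨ v i = -1) (a : (Fin k → Bool) × (Fin k → Bool)) :
    sqJ cls c u v a = 1 ∨ sqJ cls c u v a = -1 := by
  have hmul : ∀ x y : ℝ, (x = 1 ∨ x = -1) → (y = 1 ∨ y = -1) → (x * y = 1 ∨ x * y = -1) := by
    rintro x y (rfl | rfl) (rfl | rfl) <;> simp
  unfold sqJ
  apply hmul
  · rcases chi_or k a.1 a.2 with h | h <;> rw [h] <;> simp
  · apply Finset.prod_induction _ (fun t : ℝ => t = 1 ∨ t = -1)
    · exact fun x y hx hy => hmul x y hx hy
    · left; rfl
    · intro i _
      apply hmul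
      · split_ifs
        · exact hu i
        · left; rfl
      · split_ifs
        · exact hv i
        · left; rfl

theorem sqJ_mul (cls : J → Fin 4) (c : J) {u v : IV J k PA → ℝ} (hu : ∀ i, u i = 1 ∨ u i = -1)
    (hv : ∀ i, v i = 1 ∨ v i = -1) (a b : (Fin k → Bool) × (Fin k → Bool)) :
    sqJ cls c u v (xp a b) = sqJ cls c u v a * sqJ cls c u v b * (hh k a b : ℝ) := by
  unfold sqJ
  have h1 : (chi k (xp a b).1 (xp a b).2 : ℝ) =
      (chi k a.1 a.2 : ℝ) * (chi k b.1 b.2 : ℝ) * (hh k a b : ℝ) := by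
    have : chi k (xp a b).1 (xp a b).2 = chi k a.1 a.2 * chi k b.1 b.2 * hh k a b := by
      unfold xp CmbX.hh
      simp only
      rw [chi_xv, chi_xv', chi_xv']
      ring
    rw [this]
    push_cast
    ring
  have h2 : ∏ i : IV J k PA,
      ((if (ag cls i.1.1 c && dtp i.1.2.1 (xp a b).2) = true then u i else 1) *
        (if (ag cls c i.1.1 && dtp (xp a b).1 i.1.2.2) = true then v i else 1)) =
      (∏ i : IV J k PA,
        ((if (ag cls i.1.1 c && dtp i.1.2.1 a.2) = true then u i else 1) *
          (if (ag cls c i.1.1 && dtp a.1 i.1.2.2) = true then v i else 1))) *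
      ∏ i : IV J k PA,
        ((if (ag cls i.1.1 c && dtp i.1.2.1 b.2) = true then u i else 1) *
          (if (ag cls c i.1.1 && dtp b.1 i.1.2.2) = true then v i else 1)) := by
    rw [← Finset.prod_mul_distrib]
    apply Finset.prod_congr rfl
    intro i _
    unfold xp
    simp only
    rw [dtp_xv, dtp_xv', ite_mul_xor _ _ _ (hu i), ite_mul_xor _ _ _ (hv i)]
    ring
  rw [h1, h2]
  ring

theorem LS_eqJ (cls : J → Fin 4) (U : Finset (IV J k PA)) (j0 : J)
    (u v : IV J k PA → ℝ) :
    TF.LS (fun i : IV J k PA => i.1.1) (fun _ => 1 / 2 ^ k) (LV (ag cls)) (NJ j0) U j0 (-1) u v =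
      1 / 2 ^ k * ∑ a ∈ (U.filter (fun i => i.1.1 = j0)).image (fun i => i.1.2),
        sqJ cls j0 u v a := by
  unfold TF.LS
  rw [Finset.sum_image, Finset.mul_sum]
  · apply Finset.sum_congr rfl
    intro j hj
    have hjc : j.1.1 = j0 := (Finset.mem_filter.1 hj).2
    unfold sqJ LV NJ
    have e1 : (decide (j.1.1 = j0)) = true := by
      rw [decide_eq_true_iff]; exact hjc
    rw [e1, Bool.true_and, hjc]
    congr 2
    have e2 := dtp_iff j.1.2.1 j.1.2.2
    rcases chi_or k j.1.2.1 j.1.2.2 with h | h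
    · rw [h] at e2 ⊢
      rw [if_neg (fun h3 => by have := e2.1 h3; norm_num at this)]
      norm_num
    · rw [h] at e2 ⊢
      rw [if_pos (e2.2 rfl)]
      norm_num
  · intro i hi j hj hij
    have hic : i.1.1 = j0 := (Finset.mem_filter.1 hi).2
    have hjc : j.1.1 = j0 := (Finset.mem_filter.1 hj).2
    exact Subtype.ext (Prod.ext (hic.trans hjc.symm) hij)

theorem ag_symm (cls : J → Fin 4) (c c' : J) : ag cls c c' = ag cls c' c := by
  unfold ag
  exact decide_eq_decide.2 ne_comm

/-- the local sums of a critical set -/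
theorem LS_leJ (cls : J → Fin 4) (U : Finset (IV J k PA))
    (hU : ∀ i ∈ U, ∀ j ∈ U, LV (ag cls) i j = LV (ag cls) j i) (c l : J)
    (hadj : ag cls c l = true)
    (h0 : 0 < uV U l) (huc : uV U l * uV U c = 4 ^ k)
    (u v : IV J k PA → ℝ) (hu : ∀ i, u i = 1 ∨ u i = -1)
    (hv : ∀ i, v i = 1 ∨ v i = -1) :
    |TF.LS (fun i : IV J k PA => i.1.1) (fun _ => 1 / 2 ^ k) (LV (ag cls)) (NJ c) U c (-1) u v| ≤
      1 := by
  classical
  rw [LS_eqJ cls U c]
  set A0 := (U.filter (fun i => i.1.1 = l)).image (fun i => i.1.2) with hA0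
  set A := (U.filter (fun i => i.1.1 = c)).image (fun i => i.1.2) with hA
  have cA0 : A0.card = uV U l := card_imgV _ l (fun i hi => (Finset.mem_filter.1 hi).2)
  have cA : A.card = uV U c := card_imgV _ c (fun i hi => (Finset.mem_filter.1 hi).2)
  set W : Finset ((Fin k → Bool) × (Fin k → Bool)) :=
    univ.filter (fun a => ∀ b ∈ A0, hh k a b = 1) with hW
  have hAW : A ⊆ W := by
    intro a ha
    rw [hW, Finset.mem_filter]
    refine ⟨mem_univ _, fun b hb => ?_⟩
    rw [hA, Finset.mem_image] at ha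
    rw [hA0, Finset.mem_image] at hb
    obtain ⟨i, hi, rfl⟩ := ha
    obtain ⟨j, hj, rfl⟩ := hb
    rw [Finset.mem_filter] at hi hj
    exact orthoV (ag_symm cls) i j (by rw [hi.2, hj.2]; exact hadj) (hU i hi.1 j hj.1)
  have hWc : W.card * A0.card ≤ 4 ^ k := by
    apply lindsey
    intro a ha b hb
    exact (Finset.mem_filter.1 ha).2 b hb
  have hWA : W.card ≤ A.card := by
    rw [cA0] at hWc
    rw [cA]
    rw [← huc, mul_comm] at hWc
    exact Nat.le_of_mul_le_mul_left hWc h0
  have hAeq : A = W := Finset.eq_of_subset_of_card_le hAW hWA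
  have hclosed : ∀ a ∈ W, ∀ b ∈ W, xp a b ∈ W := by
    intro a ha b hb
    rw [hW, Finset.mem_filter]
    refine ⟨mem_univ _, fun d hd => ?_⟩
    rw [hh_xp, (Finset.mem_filter.1 ha).2 d hd, (Finset.mem_filter.1 hb).2 d hd, one_mul]
  have hq := quad_sum W hclosed (sqJ cls c u v) (sqJ_or cls c hu hv) (sqJ_mul cls c hu hv)
  have hl : W.card * (univ.filter (fun h => ∀ a ∈ W, hh k a h = 1)).card ≤ 4 ^ k := by
    apply lindsey
    intro a ha b hb
    exact (Finset.mem_filter.1 hb).2 a ha
  have h5 : (∑ a ∈ W, sqJ cls c u v a) ^ 2 ≤ (2 ^ k) ^ 2 := by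
    refine hq.trans ?_
    have : ((W.card * (univ.filter (fun h => ∀ a ∈ W, hh k a h = 1)).card : ℕ) : ℝ) ≤
        ((4 ^ k : ℕ) : ℝ) := by exact_mod_cast hl
    push_cast at this
    refine this.trans (le_of_eq ?_)
    rw [← pow_mul, mul_comm k 2, pow_mul]
    norm_num
  have hM : (0 : ℝ) < 2 ^ k := by positivity
  have h6 : |∑ a ∈ W, sqJ cls c u v a| ≤ 2 ^ k := abs_le_of_sq_le_sq h5 hM.le
  rw [hAeq, abs_mul, abs_of_pos (by positivity : (0 : ℝ) < 1 / 2 ^ k), one_div, inv_mul_le_iff₀ hM,
    mul_one]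
  exact h6

theorem nf_compl (cls : J → Fin 4) (c : Fin 4) :
    (univ.filter (fun j => ¬ cls j = c)).card = Fintype.card J - nf cls c := by
  unfold nf
  have h1 := Finset.card_filter_add_card_filter_not (s := (univ : Finset J)) (fun j => cls j = c)
  rw [Finset.card_univ] at h1
  omega

/-- the numerical part -/
theorem numJ {m : ℕ} (hm : 0 < m) (cls : J → Fin 4) (j0 : J) (u : J → ℕ)
    (hu : ∀ j l, cls j ≠ cls l → u j * u l ≤ m * m)
    (hn : ∀ j, 2 * nf cls (cls j) ≤ Fintype.card J)
    (hj0 : ∀ j, 2 * nf cls (cls j) = Fintype.card J → cls j0 = cls j)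
    (hprod : m ^ Fintype.card J ≤ ∏ j, u j) :
    (∀ j, u j = m) ∨ (2 * nf cls (cls j0) = Fintype.card J ∧ m < u j0 ∧
      (∀ l, cls l ≠ cls j0 → u j0 * u l = m * m) ∧ ∏ j, u j = m ^ Fintype.card J) := by
  haveI : Nonempty J := ⟨j0⟩
  have hpos : ∀ j, 0 < u j := by
    have h1 : ∏ j, u j ≠ 0 := by
      have : 0 < m ^ Fintype.card J := pow_pos hm _
      omega
    intro j
    exact Nat.pos_of_ne_zero (Finset.prod_ne_zero_iff.1 h1 j (mem_univ j))
  obtain ⟨j1, hj1⟩ := Finite.exists_max u
  by_cases hM : u j1 ≤ m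
  · left
    by_contra hcon
    push Not at hcon
    obtain ⟨j, hj⟩ := hcon
    have hlt : ∏ j, u j < ∏ _j : J, m := by
      apply Finset.prod_lt_prod (fun j _ => hpos j) (fun j _ => (hj1 j).trans hM)
      exact ⟨j, mem_univ _, lt_of_le_of_ne ((hj1 j).trans hM) hj⟩
    rw [Finset.prod_const, Finset.card_univ] at hlt
    omega
  right
  push Not at hM
  set M := u j1 with hMdef
  set c := cls j1 with hc
  set a := nf cls c with ha
  set b := Fintype.card J - nf cls c with hb
  have h00 : 2 * a ≤ Fintype.card J := hn j1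
  have hab : a + b = Fintype.card J := by omega
  have hle : a ≤ b := by omega
  let g : J → ℕ := fun j => if cls j = c then u j else M * u j
  let h : J → ℕ := fun j => if cls j = c then M else m * m
  have hgh : ∀ j, g j ≤ h j := by
    intro j
    show (if cls j = c then u j else M * u j) ≤ (if cls j = c then M else m * m)
    split_ifs with h1
    · exact hj1 j
    · exact hu j1 j (fun h2 => h1 h2.symm)
  have hM0 : 0 < M := lt_trans hm hM
  have hg0 : ∀ j, 0 < g j := by
    intro j
    show 0 < (if cls j = c then u j else M * u j)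
    split_ifs
    · exact hpos j
    · exact Nat.mul_pos hM0 (hpos j)
  have pg : ∏ j, g j = (∏ j, u j) * M ^ b := by
    have e1 : ∀ j, g j = u j * (if ¬ cls j = c then M else 1) := by
      intro j
      show (if cls j = c then u j else M * u j) = _
      by_cases h1 : cls j = c
      · rw [if_pos h1, if_neg (not_not.2 h1), mul_one]
      · rw [if_neg h1, if_pos h1, mul_comm]
    rw [Finset.prod_congr rfl fun j _ => e1 j, Finset.prod_mul_distrib, ← Finset.prod_filter,
      Finset.prod_const, nf_compl]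
  have ph : ∏ j, h j = M ^ a * (m * m) ^ b := by
    show ∏ j, (if cls j = c then M else m * m) = _
    rw [Finset.prod_ite, Finset.prod_const, Finset.prod_const, nf_compl]
    rfl
  obtain ⟨e, he⟩ : ∃ e, b = a + e := ⟨b - a, by omega⟩
  have hge : M ^ a * (m * m) ^ b ≤ (∏ j, u j) * M ^ b := by
    calc M ^ a * (m * m) ^ b = m ^ (a + b) * (M ^ a * m ^ e) := by
          rw [he]; ring
      _ ≤ (∏ j, u j) * (M ^ a * M ^ e) := by
          rw [hab]
          exact Nat.mul_le_mul hprod (Nat.mul_le_mul_left _ (Nat.pow_le_pow_left hM.le _))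
      _ = (∏ j, u j) * M ^ b := by rw [he, pow_add]
  have heq : ∀ j, g j = h j := by
    by_contra hcon
    push Not at hcon
    obtain ⟨j, hj⟩ := hcon
    have hlt : ∏ j, g j < ∏ j, h j := by
      apply Finset.prod_lt_prod (fun j _ => hg0 j) (fun j _ => hgh j)
      exact ⟨j, mem_univ _, lt_of_le_of_ne (hgh j) hj⟩
    rw [pg, ph] at hlt
    omega
  have hPeq : (∏ j, u j) * M ^ b = M ^ a * (m * m) ^ b := by
    rw [← pg, ← ph]
    exact Finset.prod_congr rfl fun j _ => heq j
  have he0 : e = 0 := by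
    by_contra hne
    have h1 : m ^ (a + b) * M ^ b ≤ M ^ a * (m * m) ^ b := by
      rw [← hPeq, hab]
      exact Nat.mul_le_mul_right _ hprod
    have h2 : M ^ a * (m * m) ^ b = m ^ (a + b) * (M ^ a * m ^ e) := by rw [he]; ring
    have h3 : m ^ (a + b) * M ^ b = m ^ (a + b) * (M ^ a * M ^ e) := by rw [he, pow_add M]
    rw [h2, h3] at h1
    have h4 := Nat.le_of_mul_le_mul_left h1 (pow_pos hm _)
    have h5 := Nat.le_of_mul_le_mul_left h4 (pow_pos hM0 _)
    have h6 := Nat.pow_lt_pow_left hM hne
    omega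
  have hba : b = a := by omega
  have h2a : 2 * nf cls c = Fintype.card J := by omega
  have hcj0 : cls j0 = c := hj0 j1 h2a
  have huj0 : u j0 = M := by
    have h1 := heq j0
    show u j0 = M
    have h2 : (if cls j0 = c then u j0 else M * u j0) = (if cls j0 = c then M else m * m) := h1
    rwa [if_pos hcj0, if_pos hcj0] at h2
  refine ⟨by rw [hcj0]; exact h2a, by rw [huj0]; exact hM, ?_, ?_⟩
  · intro l hl
    have h1 : (if cls l = c then u l else M * u l) = (if cls l = c then M else m * m) := heq l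
    rw [hcj0] at hl
    rw [if_neg hl, if_neg hl] at h1
    rw [huj0]
    exact h1
  · rw [hba] at hPeq
    have h1 : M ^ a * ∏ j, u j = M ^ a * (m * m) ^ a := by rw [mul_comm, hPeq]
    have h2 := Nat.eq_of_mul_eq_mul_left (pow_pos hM0 _) h1
    rw [h2, ← hab, hba, ← pow_two, ← pow_mul]
    congr 1
    ring

/-- the coefficients -/
noncomputable def al (j0 : J) (p : Finset (IV J k PA) × Bool) (c : J) : ℝ :=
  if p.2 = true ∧ c = j0 then ((uV p.1 c : ℝ) / 2 ^ k + 1) / 2 else (uV p.1 c : ℝ) / 2 ^ k

theorem al_nonneg (j0 : J) (p : Finset (IV J k PA) × Bool) (c : J) : 0 ≤ al j0 p c := by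
  unfold al
  split_ifs <;> positivity

/-- a vector for every pair -/
theorem exists_vec (j0 : J) (p : Finset (IV J k PA) × Bool) : ∃ t : J → ℝ, (∀ j, 0 < t j) ∧
    1 < ∏ j, t j ∧ (∏ c, al j0 p c < 1 → ∑ c, al j0 p c * t c < Fintype.card J) := by
  haveI : Nonempty J := ⟨j0⟩
  by_cases h : ∏ c, al j0 p c < 1
  · obtain ⟨t, ht1, ht2, ht3⟩ := exists_tV (al j0 p) (al_nonneg j0 p) h
    exact ⟨t, ht1, ht2, fun _ => ht3⟩
  · refine ⟨fun _ => 2, fun _ => by norm_num, ?_, fun h1 => absurd h1 h⟩
    rw [Finset.prod_const, Finset.card_univ]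
    exact one_lt_pow₀ (by norm_num) Fintype.card_ne_zero

theorem al_false (j0 : J) (U : Finset (IV J k PA)) (c : J) :
    al j0 (U, false) c = (uV U c : ℝ) / 2 ^ k := by
  unfold al
  rw [if_neg]
  simp

theorem WS_eqJ (U : Finset (IV J k PA)) (c : J) :
    TF.WS (fun i : IV J k PA => i.1.1) (fun _ => 1 / 2 ^ k) U c = (uV U c : ℝ) / 2 ^ k := by
  unfold TF.WS uV
  rw [Finset.sum_const, nsmul_eq_mul]
  ring

end

end CmbG

open CmbG Pool.Agent.TH344.DT.CmbX Pool.Agent.TH344.JG.CmbV

theorem cmbg : S_CMBG := by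
  classical
  intro J _ _ cls j0 k h3 hnf hj0 _
  haveI : Nonempty J := ⟨j0⟩
  have h4 : (4 : ℕ) ^ k = 2 ^ k * 2 ^ k := by rw [← mul_pow]; norm_num
  have hM : (0 : ℝ) < 2 ^ k := by positivity
  have hMn : 0 < 2 ^ k := by positivity
  choose t ht1 ht2 ht3 using exists_vec (J := J) (k := k) j0
  refine ⟨Finset.univ.image t, ?_, ?_, ?_⟩
  · intro s hs j
    obtain ⟨U, _, rfl⟩ := Finset.mem_image.1 hs
    exact ht1 U j
  · intro s hs
    obtain ⟨U, _, rfl⟩ := Finset.mem_image.1 hs
    exact ht2 U
  intro U hU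
  -- small sets
  have hsmall : ∀ U' : Finset (IV J k PA), ∏ j, uV U' j < (2 ^ k) ^ Fintype.card J →
      ∃ s ∈ Finset.univ.image t, ∑ i ∈ U', 1 / 2 ^ k * s i.1.1 < (Fintype.card J : ℝ) := by
    intro U' hlt
    refine ⟨t (U', false), Finset.mem_image_of_mem t (mem_univ _), ?_⟩
    rw [sum_clsV]
    have h5 : ∑ c, (uV U' c : ℝ) / 2 ^ k * t (U', false) c =
        ∑ c, CmbG.al j0 (U', false) c * t (U', false) c :=
      Finset.sum_congr rfl fun c _ => by rw [al_false]
    rw [h5]
    apply ht3
    rw [Finset.prod_congr rfl fun c _ => al_false j0 U' c, Finset.prod_div_distrib,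
      Finset.prod_const, Finset.card_univ, div_lt_one (by positivity)]
    exact_mod_cast hlt
  have hadj : ∀ j l : J, cls j ≠ cls l → ag cls j l = true := by
    intro j l hjl
    unfold ag
    exact decide_eq_true hjl
  have hle : ∀ j l : J, cls j ≠ cls l → uV U j * uV U l ≤ 2 ^ k * 2 ^ k := by
    intro j l hjl
    rw [← h4]
    exact uV_le (ag_symm cls) U hU j l (hadj j l hjl)
  -- an adjacent form
  have hex : ∀ j : J, ∃ l : J, cls j ≠ cls l := by
    intro j
    obtain ⟨c', hc3, hcc⟩ : ∃ c' : Fin 4, c' ≠ 3 ∧ c' ≠ cls j := by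
      generalize cls j = c
      revert c
      decide
    obtain ⟨l, hl⟩ := Finset.card_pos.1 (hnf c' hc3).1
    refine ⟨l, ?_⟩
    rw [(Finset.mem_filter.1 hl).2]
    exact hcc.symm
  by_cases hlt : ∏ j, uV U j < (2 ^ k) ^ Fintype.card J
  · left
    left
    exact hsmall U hlt
  push Not at hlt
  rcases numJ hMn cls j0 (uV U) hle (fun j => (hnf _ (h3 j)).2)
    (fun j hj => hj0 _ (h3 j) hj) hlt with hne | ⟨h2n, hgt, hmul, hprodU⟩
  · -- all classes full
    left
    right
    have hcls : ∀ s : J → ℝ, ∑ i ∈ U, 1 / 2 ^ k * s i.1.1 = ∑ c, s c := by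
      intro s
      rw [sum_clsV]
      apply Finset.sum_congr rfl
      intro c _
      rw [hne c]
      push_cast
      rw [div_self hM.ne', one_mul]
    refine ⟨?_, ?_, ?_⟩
    · have h5 := hcls (fun _ => 1)
      simp only [mul_one] at h5
      rw [h5]
      simp
    · intro s hs
      obtain ⟨W, _, rfl⟩ := Finset.mem_image.1 hs
      obtain ⟨θ, hθ, hlt⟩ := exists_thetaV (t W) (ht1 W) (ht2 W)
      refine ⟨θ, hθ, ?_⟩
      have h8 : ∑ i ∈ U, 1 / 2 ^ k * t W i.1.1 ^ (-θ) = ∑ c, t W c ^ (-θ) :=
        hcls (fun c => t W c ^ (-θ))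
      rw [h8]
      exact hlt
    · intro j hj
      by_contra hcon
      push Not at hcon
      obtain ⟨c', hc'⟩ := hex j.1.1
      have h6 := pair_leV (ag_symm cls) (insert j (U.filter (fun i => i.1.1 = j.1.1)))
        (U.filter (fun i => i.1.1 = c')) j.1.1 c' (hadj _ _ hc') (by
          intro i hi
          rcases Finset.mem_insert.1 hi with rfl | hi
          · rfl
          · exact (Finset.mem_filter.1 hi).2) (fun i hi => (Finset.mem_filter.1 hi).2) (by
          intro i hi i' hi'
          rcases Finset.mem_insert.1 hi with rfl | hi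
          · exact (hcon i' (Finset.mem_filter.1 hi').1).symm
          · exact hU i (Finset.mem_filter.1 hi).1 i' (Finset.mem_filter.1 hi').1)
      rw [Finset.card_insert_of_notMem (by
        intro h7
        exact hj (Finset.mem_filter.1 h7).1)] at h6
      have e1 : (U.filter (fun i => i.1.1 = j.1.1)).card = 2 ^ k := hne j.1.1
      have e2 : (U.filter (fun i => i.1.1 = c')).card = 2 ^ k := hne c'
      rw [e1, e2, h4] at h6
      nlinarith
  · -- critical
    right
    refine ⟨h2n, ?_, ?_⟩
    · -- proper subsets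
      intro U' hU'
      obtain ⟨hsub, i, hiU, hiU'⟩ := Finset.ssubset_iff_of_subset hU'.1 |>.1 hU' |> fun h =>
        (⟨hU'.1, h⟩ : U' ⊆ U ∧ ∃ i ∈ U, i ∉ U')
      apply hsmall
      rw [← hprodU]
      have hmono : ∀ c, uV U' c ≤ uV U c := fun c =>
        Finset.card_le_card (Finset.filter_subset_filter _ hsub)
      have hstrict : uV U' i.1.1 < uV U i.1.1 := by
        apply Finset.card_lt_card
        rw [Finset.ssubset_iff_of_subset (Finset.filter_subset_filter _ hsub)]
        exact ⟨i, Finset.mem_filter.2 ⟨hiU, rfl⟩, fun h => hiU' (Finset.mem_filter.1 h).1⟩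
      by_cases hz : ∃ c, uV U' c = 0
      · obtain ⟨c, hc⟩ := hz
        rw [Finset.prod_eq_zero (mem_univ c) hc, hprodU]
        positivity
      · push Not at hz
        exact Finset.prod_lt_prod (fun c _ => Nat.pos_of_ne_zero (hz c)) (fun c _ => hmono c)
          ⟨i.1.1, mem_univ _, hstrict⟩
    · -- the vector
      obtain ⟨l, hl⟩ := hex j0
      have hul := hmul l hl.symm
      have hul0 : 0 < uV U l := by
        apply Nat.pos_of_ne_zero
        intro h0
        rw [h0, mul_zero] at hul
        have : 0 < 2 ^ k * 2 ^ k := Nat.mul_pos hMn hMn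
        omega
      refine ⟨t (U, true), Finset.mem_image_of_mem t (mem_univ _), fun _ => 1, ?_, ?_, ?_⟩
      · intro c hc
        rw [Finset.mem_singleton] at hc
        subst hc
        refine ⟨zero_le_one, ?_⟩
        rw [WS_eqJ, le_div_iff₀ hM, one_mul]
        exact_mod_cast hgt.le
      · intro c hc u v hu hv
        rw [Finset.mem_singleton] at hc
        subst hc
        refine LS_leJ cls U hU c l (hadj _ _ hl) hul0 ?_ u v hu hv
        rw [h4, mul_comm]
        exact hul
      · have hsum : ∑ i ∈ U.filter (fun i : IV J k PA => i.1.1 ∉ ({j0} : Finset J)),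
            1 / 2 ^ k * t (U, true) i.1.1 +
            ∑ c ∈ ({j0} : Finset J), t (U, true) c *
              ((TF.WS (fun i : IV J k PA => i.1.1) (fun _ => 1 / 2 ^ k) U c + 1) / 2) =
            ∑ c, CmbG.al j0 (U, true) c * t (U, true) c := by
          rw [sum_clsV, Finset.sum_singleton, WS_eqJ]
          have f1 : ∀ c, c ≠ j0 → (uV (U.filter (fun i : IV J k PA =>
              i.1.1 ∉ ({j0} : Finset J))) c) = uV U c := by
            intro c hc
            unfold uV
            rw [Finset.filter_filter]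
            congr 1
            apply Finset.filter_congr
            intro i _
            constructor
            · exact fun h => h.2
            · intro h
              refine ⟨?_, h⟩
              rw [h, Finset.mem_singleton]
              exact hc
          have f2 : (uV (U.filter (fun i : IV J k PA =>
              i.1.1 ∉ ({j0} : Finset J))) j0) = 0 := by
            unfold uV
            rw [Finset.filter_filter, Finset.card_eq_zero, Finset.filter_eq_empty_iff]
            rintro i _ ⟨h1, h2⟩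
            rw [h2] at h1
            exact h1 (Finset.mem_singleton_self _)
          rw [← Finset.add_sum_erase univ _ (mem_univ j0),
            ← Finset.add_sum_erase univ (fun c => CmbG.al j0 (U, true) c * t (U, true) c)
              (mem_univ j0), f2]
          have f3 : ∑ x ∈ univ.erase j0, (uV (U.filter (fun i : IV J k PA =>
              i.1.1 ∉ ({j0} : Finset J))) x : ℝ) / 2 ^ k * t (U, true) x =
              ∑ x ∈ univ.erase j0, CmbG.al j0 (U, true) x * t (U, true) x := by
            refine Finset.sum_congr rfl fun x hx => ?_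
            have hx0 : x ≠ j0 := Finset.ne_of_mem_erase hx
            rw [f1 x hx0]
            unfold CmbG.al
            rw [if_neg (fun h => hx0 h.2)]
          rw [f3]
          have f4 : CmbG.al j0 (U, true) j0 = ((uV U j0 : ℝ) / 2 ^ k + 1) / 2 := by
            unfold CmbG.al
            rw [if_pos ⟨rfl, rfl⟩]
          rw [f4]
          simp only [Nat.cast_zero, zero_div, zero_mul]
          ring
        rw [hsum]
        apply ht3
        set x := (uV U j0 : ℝ) / 2 ^ k with hx
        have hx1 : 1 < x := by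
          rw [hx, one_lt_div hM]
          exact_mod_cast hgt
        have e1 : ∏ c, ((uV U c : ℝ) / 2 ^ k) = 1 := by
          rw [Finset.prod_div_distrib, Finset.prod_const, Finset.card_univ,
            div_eq_one_iff_eq (by positivity)]
          exact_mod_cast hprodU
        rw [← Finset.mul_prod_erase univ _ (mem_univ j0)] at e1
        rw [← Finset.mul_prod_erase univ _ (mem_univ j0)]
        have e2 : ∏ c ∈ univ.erase j0, CmbG.al j0 (U, true) c =
            ∏ c ∈ univ.erase j0, ((uV U c : ℝ) / 2 ^ k) := by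
          refine Finset.prod_congr rfl fun c hc => ?_
          unfold CmbG.al
          rw [if_neg (fun h => Finset.ne_of_mem_erase hc h.2)]
        have e3 : CmbG.al j0 (U, true) j0 = (x + 1) / 2 := by
          unfold CmbG.al
          rw [if_pos ⟨rfl, rfl⟩]
        rw [e2, e3]
        rw [← hx] at e1
        set q := ∏ c ∈ univ.erase j0, ((uV U c : ℝ) / 2 ^ k) with hq
        have hx0 : 0 < x := by linarith
        have hq1 : q < 1 := by
          by_contra hcon
          push Not at hcon
          nlinarith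
        nlinarith

end Pool.Agent.T6.H30.UC
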