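import Pool.Agent.T6.H30.UC.Defs

/-!
# Project UC, module CRIT2: the sum over the variables of a critical set
-/

set_option autoImplicit false

namespace Pool.Agent.T6.H30.UC

open Pool.Agent.T6.H30.TF Finset Pool.Agent.W262.RK Pool.Agent.W262.RK.AT Pool.Agent.TH344.DT

theorem crit2 (hF : S_FUL) (hAC : S_AC2) (hR : S_REG2) : S_CRIT2 := by
  classical
  intro κ0 J ι _ _ _ _ cls w L κ N c K T D U hκ0 hsq hw hKK hLD hT hCrt π h3 hπ A
  obtain ⟨-, t, htT, β, hβ, hLS, hlt⟩ := hCrt
  have ht := hT t htT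
  have hv : ∀ i, 0 < w i * t (cls i) := fun i => mul_pos (hw i) (ht _)
  choose z1 hz1 using fun i => hF (w i * t (cls i)) c (hv i)
  have hac : ∀ c' : J, ∃ z0 : ℕ, c' ∈ D → ∀ z, z0 ≤ z → ∃ C : ℝ, 0 ≤ C ∧
      ∀ y, z < y → ∑ d ∈ (PP z y).divisors, gab2 κ0 (t c' * WS cls w U c') (t c' * β c') c d ≤
        C * (Real.log y) ^ ((t c' * WS cls w U c' + t c' * β c') / 2) := by
    intro c'
    by_cases hc : c' ∈ D
    · obtain ⟨h1, h2⟩ := hβ c' hc
      obtain ⟨z0, hz0⟩ := hAC κ0 (t c' * WS cls w U c') (t c' * β c') c hκ0 hsq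
        (mul_nonneg (ht _).le h1) (mul_le_mul_of_nonneg_left h2 (ht _).le)
      exact ⟨z0, fun _ => hz0⟩
    · exact ⟨0, fun h => absurd h hc⟩
  choose z2 hz2 using hac
  refine ⟨univ.sup z1 + univ.sup z2 + univ.sup (fun i => (κ i).natAbs) + κ0.natAbs + 2 * c + 2,
    fun z hz => ?_⟩
  have hcz : c ≤ z := by omega
  have hz2' : 2 ≤ z := by omega
  have hz1i : ∀ i, z1 i ≤ z := fun i => (le_sup (f := z1) (mem_univ i)).trans (by omega)
  have hz2i : ∀ i, z2 i ≤ z := fun i => (le_sup (f := z2) (mem_univ i)).trans (by omega)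
  have hκi : ∀ i, (κ i).natAbs ≤ z := fun i =>
    (le_sup (f := fun i => (κ i).natAbs) (mem_univ i)).trans (by omega)
  choose CF hCF1 hF1 hF2 using fun i => hz1 i z (hz1i i)
  have hcg : ∀ c' : J, ∃ C : ℝ, 0 ≤ C ∧ (c' ∈ D → ∀ y, z < y →
      ∑ d ∈ (PP z y).divisors, gab2 κ0 (t c' * WS cls w U c') (t c' * β c') c d ≤
        C * (Real.log y) ^ ((t c' * WS cls w U c' + t c' * β c') / 2)) := by
    intro c'
    by_cases hc : c' ∈ D
    · obtain ⟨C, h1, h2⟩ := hz2 c' hc z (hz2i c')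
      exact ⟨C, h1, fun _ => h2⟩
    · exact ⟨0, le_rfl, fun h => absurd h hc⟩
  choose CG hCG0 hCG using hcg
  set B : Finset ι := univ.filter (fun b => ¬ (b ∈ U ∧ cls b ∈ D)) with hB
  set S := ∑ k ∈ B.filter (fun k => π k = 2), w k * t (cls k) with hS
  set W := ∑ k ∈ B.filter (fun k => ¬ π k = 2), w k * t (cls k) with hW
  set S2 := ∑ c' ∈ D, (t c' * WS cls w U c' + t c' * β c') / 2 with hS2
  have hSK : S + S2 < K := by
    have e1 : S = ∑ i ∈ U.filter (fun i => cls i ∉ D), w i * t (cls i) := by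
      rw [hS]
      apply sum_congr _ (fun _ _ => rfl)
      ext i
      simp only [hB, mem_filter, mem_univ, true_and, hπ i]
      tauto
    have e2 : S2 = ∑ c' ∈ D, t c' * ((WS cls w U c' + β c') / 2) := by
      rw [hS2]
      apply sum_congr rfl
      intro c' _
      ring
    rw [e1, e2]
    exact hlt
  obtain ⟨M, hM⟩ : ∃ M : ℕ, W ≤ M := exists_nat_ge W
  obtain ⟨C1, hC1, h1⟩ := log_VV_pow_le A M (sub_pos.2 hSK)
  have hCp : 0 ≤ ∏ k ∈ B, CF k := prod_nonneg fun k _ => zero_le_one.trans (hCF1 k)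
  have hCq : 0 ≤ ∏ c' ∈ D, CG c' := prod_nonneg fun k _ => hCG0 k
  refine ⟨(∏ k ∈ B, CF k) * (∏ c' ∈ D, CG c') * C1, fun y hy => ?_⟩
  have hly := one_le_log hz2' hy
  have hly0 : 0 < Real.log y := by linarith
  set l := Real.log y with hl
  set V := VV A l with hV
  set Y := YY A l with hY
  have hV3 : 3 ≤ V := three_le_VV A l
  have hlV : 1 ≤ Real.log V := one_le_log_VV A l
  have hlV0 : 0 < Real.log V := by linarith
  have hmain := hR κ0 J ι cls w L κ N c z y D U t β (rho T) (fun b => cell z y V Y (π b)) hκ0 (by omega) hw hz2'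
    (by omega) hκi hKK hLD ht hβ hLS
    (fun n => ⟨rho_nonneg hT n, rho_le_prod htT n⟩) (fun b => cell_sub _ _ _ _ _)
  have e1 : ∀ k ∈ B, ∑ m ∈ cell z y V Y (π k), gw (w k * t (cls k)) c m ≤
      CF k * (if π k = 2 then l ^ (w k * t (cls k)) else (Real.log V) ^ (w k * t (cls k))) := by
    intro k _
    have hnn : ∀ m ∈ (PP z y).divisors, 0 ≤ gw (w k * t (cls k)) c m := fun m hm =>
      gw_nonneg (hv k).le hcz hm
    by_cases h : π k = 2
    · rw [if_pos h]
      refine le_trans (sum_le_sum_of_subset_of_nonneg (cell_sub _ _ _ _ _)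
        fun m hm _ => hnn m hm) (hF1 k y hy)
    · rw [if_neg h]
      refine le_trans ?_ (hF2 k y V hy (by omega))
      apply sum_le_sum_of_subset_of_nonneg
      · intro m hm
        rw [mem_filter]
        refine ⟨cell_sub _ _ _ _ _ hm, ?_⟩
        have h4 := h3 k
        have : π k = 0 ∨ π k = 1 := by
          revert h h4
          generalize π k = r
          revert r
          decide
        rcases this with h5 | h5
        · rw [h5] at hm
          have := cell_zero hm
          omega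
        · rw [h5] at hm
          exact (cell_one hm).2
      · intro m hm _
        exact hnn m (mem_filter.1 hm).1
  have e0 : ∀ k ∈ B, 0 ≤ ∑ m ∈ cell z y V Y (π k), gw (w k * t (cls k)) c m := fun k _ =>
    sum_nonneg fun m hm => gw_nonneg (hv k).le hcz (cell_sub _ _ _ _ _ hm)
  have g0 : ∀ c' ∈ D, 0 ≤ ∑ s ∈ (PP z y).divisors,
      gab2 κ0 (t c' * WS cls w U c') (t c' * β c') c s := by
    intro c' hc'
    obtain ⟨b1, b2⟩ := hβ c' hc'
    have hb : 0 ≤ t c' * β c' := mul_nonneg (ht _).le b1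
    have ha : 0 ≤ t c' * WS cls w U c' := mul_nonneg (ht _).le (b1.trans b2)
    apply sum_nonneg
    intro s hs
    unfold gab2
    apply prod_nonneg
    intro p hp
    have hpz : c < p := by
      have h6 : p ∣ PP z y := (Nat.dvd_of_mem_primeFactors hp).trans (Nat.dvd_of_mem_divisors hs)
      have h7 := gw_nonneg (w := 1) zero_le_one hcz
        (Nat.mem_divisors.2 ⟨h6, (Nat.mem_divisors.1 hs).2⟩)
      have h8 : z < p := by
        have hpp := Nat.prime_of_mem_primeFactors hp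
        unfold PP at h6
        obtain ⟨q, hq, hpq⟩ := (Prime.dvd_finset_prod_iff hpp.prime _).1 h6
        unfold PS at hq
        rw [mem_filter, mem_Ioc] at hq
        have : p = q := (Nat.prime_dvd_prime_iff_eq hpp hq.2).1 hpq
        omega
      omega
    have hpc : (0 : ℝ) ≤ (p : ℝ) - c := by
      have : (c : ℝ) < p := by exact_mod_cast hpz
      linarith
    split_ifs
    · exact div_nonneg ha hpc
    · exact div_nonneg hb hpc
  have hP1 : ∏ b ∈ B, ∑ m ∈ cell z y V Y (π b), gw (w b * t (cls b)) c m ≤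
      (∏ k ∈ B, CF k) * (l ^ S * (Real.log V) ^ W) := by
    calc _ ≤ ∏ k ∈ B, (CF k * (if π k = 2 then l ^ (w k * t (cls k)) else
          (Real.log V) ^ (w k * t (cls k)))) := prod_le_prod e0 e1
      _ = _ := by
        rw [prod_mul_distrib, prod_ite, ← Real.rpow_sum_of_pos hly0, ← Real.rpow_sum_of_pos hlV0]
  have hP2 : ∏ c' ∈ D, ∑ s ∈ (PP z y).divisors, gab2 κ0 (t c' * WS cls w U c') (t c' * β c') c s ≤
      (∏ c' ∈ D, CG c') * l ^ S2 := by
    calc _ ≤ ∏ c' ∈ D, (CG c' * l ^ ((t c' * WS cls w U c' + t c' * β c') / 2)) :=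
          prod_le_prod g0 (fun c' hc' => hCG c' hc' y hy)
      _ = _ := by
        rw [prod_mul_distrib, ← Real.rpow_sum_of_pos hly0]
  have hVW : (Real.log V) ^ W ≤ (Real.log V) ^ M := by
    rw [← Real.rpow_natCast]
    exact Real.rpow_le_rpow_of_exponent_le hlV hM
  calc _ ≤ _ := hmain
    _ ≤ ((∏ k ∈ B, CF k) * (l ^ S * (Real.log V) ^ W)) * ((∏ c' ∈ D, CG c') * l ^ S2) := by
        apply mul_le_mul hP1 hP2 (prod_nonneg g0)
        positivity
    _ ≤ ((∏ k ∈ B, CF k) * (l ^ S * (C1 * l ^ (K - (S + S2))))) *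
          ((∏ c' ∈ D, CG c') * l ^ S2) := by
        apply mul_le_mul_of_nonneg_right _ (by positivity)
        apply mul_le_mul_of_nonneg_left _ hCp
        exact mul_le_mul_of_nonneg_left (hVW.trans (h1 l hly)) (by positivity)
    _ = (∏ k ∈ B, CF k) * (∏ c' ∈ D, CG c') * C1 * (l ^ S * l ^ S2 * l ^ (K - (S + S2))) := by
        ring
    _ = _ := by
        rw [← Real.rpow_add hly0, ← Real.rpow_add hly0]
        congr 2
        ring

end Pool.Agent.T6.H30.UC
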