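import Mathlib
import Pool.Agent.T6.H30.UC.Defs
import Pool.Agent.TH344.BF.Maf

/-! Project UC: the main average. -/

set_option autoImplicit false

namespace Pool.Agent.T6.H30.UC

open Finset Pool.Agent.W262.RK Pool.Agent.W262.RK.AT Pool.Agent.W307.RT Pool.Agent.TH344.DT
  Pool.Agent.TH344.JG Pool.Agent.TH344.BF Pool.Agent.TH344.GT Pool.Agent.T6.H30.TF

/-- from the unlinked sets to the main average -/
theorem mafg_core (hA : S_ATX2) (hE : S_EXPK) (κ0 : ℤ) (hκ0 : κ0 ≠ 0) (hsq : ¬ IsSquare κ0)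
    (J : Type) [Fintype J] [DecidableEq J] (cls : J → Fin 4) (κ : J → ℤ) (k : ℕ)
    (N : IV J k PA → Bool) (D : Finset J) (T : Finset (J → ℝ))
    (hκ : ∀ j, κ j ≠ 0) (hk : 1 ≤ k) (hT1 : ∀ t ∈ T, ∀ j, 0 < t j)
    (hKK : KK2 κ0 (fun i : IV J k PA => i.1.1) (kapI κ) N D)
    (hLD : LD (fun i : IV J k PA => i.1.1) (LV (ag cls)) D)
    (hU : ∀ U : Finset (IV J k PA), (∀ i ∈ U, ∀ j ∈ U, LV (ag cls) i j = LV (ag cls) j i) →
      Alt (fun i : IV J k PA => i.1.1) (fun _ => 1 / 2 ^ k) (LV (ag cls)) (Fintype.card J) T U ∨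
      Crt (fun i : IV J k PA => i.1.1) (fun _ => 1 / 2 ^ k) (LV (ag cls)) N
        (Fintype.card J) T D U) :
    MAFK (ag cls) κ k T := by
  classical
  have hw : (0 : ℝ) < 1 / 2 ^ k ∧ (1 / 2 ^ k : ℝ) ≤ 1 / 2 := by
    refine ⟨by positivity, ?_⟩
    apply one_div_le_one_div_of_le (by norm_num)
    calc (2 : ℝ) = 2 ^ 1 := (pow_one 2).symm
      _ ≤ 2 ^ k := pow_le_pow_right₀ (by norm_num) hk
  have had : ∀ c, ag cls c c = false := by
    intro c
    unfold ag
    simp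
  have hsym : ∀ c c', ag cls c c' = ag cls c' c := by
    intro c c'
    unfold ag
    rw [decide_eq_decide]
    exact ne_comm
  have hLL : ∀ i : IV J k PA, LV (ag cls) i i = false := by
    intro i
    unfold LV
    rw [had i.1.1, Bool.false_and]
  have hkap : ∀ i : IV J k PA, kapI κ i ≠ 0 := by
    intro i
    unfold kapI
    split_ifs
    · exact hκ _
    · exact one_ne_zero
  obtain ⟨z0, hz0⟩ := hA κ0 J (IV J k PA) (fun i => i.1.1) (fun _ => 1 / 2 ^ k)
    (LV (ag cls)) (kapI κ) N (Fintype.card J) ((Fintype.card J : ℕ) : ℝ) T D hκ0 hsq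
    (fun _ => hw) hLL hkap (by positivity) hT1 hKK hLD hU
  obtain ⟨z1, hz1⟩ : ∃ z1 : ℕ, ∀ j, (κ j).natAbs ≤ z1 :=
    ⟨univ.sup (fun j => (κ j).natAbs), fun j => Finset.le_sup (f := fun j => (κ j).natAbs)
      (mem_univ j)⟩
  refine ⟨max z0 (max z1 2), fun z hz => ?_⟩
  obtain ⟨C, hC'⟩ := hz0 z (le_trans (le_max_left _ _) hz)
  refine ⟨C, fun y hy => ?_⟩
  have hz' : max z1 2 ≤ z := le_trans (le_max_right _ _) hz
  have hz2 : 2 ≤ z := le_trans (le_max_right _ _) hz'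
  have hzk : ∀ j, (κ j).natAbs ≤ z := fun j => (hz1 j).trans (le_trans (le_max_left _ _) hz')
  have e1 : ∑ s ∈ Tup J z y, (NV (ag cls) s (EK κ s) : ℝ) ^ k * rho T (om s) *
      ∏ j, gw 1 (Fintype.card J) (s j) =
      ∑ s ∈ Tup J z y, (NV (ag cls) s (EK κ s) : ℝ) ^ k * (∏ j, gw 1 (Fintype.card J) (s j)) *
        rho T (om s) := by
    apply sum_congr rfl
    intro s _
    ring
  have e2 : ∑ d ∈ Tup (IV J k PA) z y, (∏ i, gw (1 / 2 ^ k) (Fintype.card J) (d i)) *
      Sym (LV (ag cls)) (kapI κ) d * rho T (om (fun j : J =>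
        ∏ i ∈ univ.filter (fun i : IV J k PA => i.1.1 = j), d i)) =
      ∑ d ∈ Tup (IV J k PA) z y, (∏ i, gw (1 / 2 ^ k) (Fintype.card J) (d i)) *
      Sym (LV (ag cls)) (kapI κ) d * rho T (nn (fun i : IV J k PA => i.1.1) (om d)) := by
    apply sum_congr rfl
    intro d hd
    rw [om_classV hd]
  rw [e1, hE J (ag cls) had hsym κ k (Fintype.card J) z y hz2 hκ hzk (fun s => rho T (om s)), e2]
  refine (le_trans (le_abs_self _) (hC' y hy)).trans (le_of_eq ?_)
  rw [Real.rpow_natCast]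

theorem mafg (hA : S_ATX2) (hC : S_CMBG) (hE : S_EXPK) : S_MAFG := by
  intro J _ _ hne cls κ k hcls h2 hcr hκ hk
  classical
  by_cases hex : ∃ c, c ≠ 3 ∧ 2 * nf cls c = Fintype.card J
  · obtain ⟨c0, hc0, hc0'⟩ := hex
    obtain ⟨j0, hj0, hsq⟩ := hcr c0 hc0 hc0'
    have huniq : ∀ c, c ≠ 3 → 2 * nf cls c = Fintype.card J → cls j0 = c := by
      intro c hc hc'
      rw [hj0]
      by_contra hcc
      have hsum : Fintype.card J = ∑ c : Fin 4, nf cls c := by
        unfold nf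
        rw [← card_univ]
        exact card_eq_sum_card_fiberwise fun x _ => mem_coe.2 (mem_univ _)
      rw [Fin.sum_univ_four] at hsum
      have a0 := (h2 0 (by decide)).1
      have a1 := (h2 1 (by decide)).1
      have a2 := (h2 2 (by decide)).1
      revert hc hc' hc0 hc0' hcc
      clear hj0 hcr
      intro hc0 hc0' hc hc' hcc
      fin_cases c0 <;> fin_cases c <;> simp at hc hc' hc0 hc0' hcc <;> omega
    obtain ⟨T, hT1, hT2, hU⟩ := hC J cls j0 k hcls h2 huniq hk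
    refine ⟨T, hT1, hT2, mafg_core hA hE (κ j0) (hκ j0) hsq J cls κ k (NJ j0) {j0} T hκ hk hT1
      ?_ ?_ fun U hun => (hU U hun).imp id fun h => h.2⟩
    · intro i hi
      refine ⟨1, one_ne_zero, ?_⟩
      have hi' : i.1.1 = j0 := mem_singleton.1 hi
      unfold kapI NJ
      rw [decide_eq_true hi', Bool.true_and, hi', one_pow, mul_one]
    · intro i j hi hj
      have hi' : i.1.1 = j0 := mem_singleton.1 hi
      have hj' : j.1.1 = j0 := mem_singleton.1 hj
      unfold LV ag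
      rw [hi', hj']
      simp
  · push Not at hex
    obtain ⟨j0⟩ := hne
    obtain ⟨T, hT1, hT2, hU⟩ := hC J cls j0 k hcls h2 (fun c hc hc' => absurd hc' (hex c hc)) hk
    refine ⟨T, hT1, hT2, mafg_core hA hE (-1) (by norm_num) ?_ J cls κ k (fun _ => false) ∅ T hκ
      hk hT1 ?_ ?_ fun U hun => ?_⟩
    · rintro ⟨m, hm⟩
      nlinarith [mul_self_nonneg m]
    · intro i hi
      exact absurd hi (notMem_empty _)
    · intro i j hi
      exact absurd hi (notMem_empty _)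
    · rcases hU U hun with h | h
      · exact Or.inl h
      · exact absurd h.1 (hex _ (hcls j0))

end Pool.Agent.T6.H30.UC
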