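import Pool.Agent.T6.H30.UC.Defs1
import Pool.Agent.T6.H30.TF.Reg

/-!
# Project UC, module REG2
-/

set_option autoImplicit false

namespace Pool.Agent.T6.H30.UC

open Finset Pool.Agent.W262.RK Pool.Agent.W262.RK.AT Pool.Agent.T6.H30.TF

namespace ModREG2

open Pool.Agent.W762.RK2 (Pr nb Dl Pr_prime nb_pf Ts prod_pf nb_dvd_PP Dl_mem lk)
open Pool.Agent.T6.H30.TF.ModREG

section
variable {J ι : Type} [Fintype J] [DecidableEq J] [Fintype ι] [DecidableEq ι]
variable {z y : ℕ}

/-- bound of the local sums -/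
noncomputable def hb2 (κ0 : ℤ) (A : Finset ι) (w : ι → ℝ) (D : Finset J) (W β : J → ℝ) (c : ℕ) (x : ι ⊕ J)
    (p : ℕ) : ℝ :=
  Sum.elim (fun i => if i ∈ A then 0 else w i / ((p : ℝ) - c))
    (fun j => if j ∈ D then (if jacobiSym κ0 p = 1 then W j else β j) / ((p : ℝ) - c) else 0) x

lemma Jr_kappa2 {κ0 : ℤ} (hκ0 : κ0 ≠ 0) {p : Pr z y} {k : ℤ} (hk : k.natAbs ≤ z) {N : Bool} {m : ℤ} (hm : m ≠ 0)
    (h : k = (if N = true then κ0 else 1) * m ^ 2) :
    Jr k p = if N = true then Jr κ0 p else 1 := by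
  have hp := Pr_prime p
  have hnd : ¬ ((p : ℕ) : ℤ) ∣ m := by
    intro hd
    have h1 : ((p : ℕ) : ℤ) ∣ k := by
      rw [h]
      exact Dvd.dvd.mul_left (dvd_pow hd (by norm_num)) _
    rw [Int.natCast_dvd] at h1
    have hk0 : k ≠ 0 := by
      rw [h]
      refine mul_ne_zero ?_ (pow_ne_zero _ hm)
      split_ifs
      · exact hκ0
      · exact one_ne_zero
    have h2 := Nat.le_of_dvd (Int.natAbs_pos.2 hk0) h1
    have := Pr_gt p
    omega
  have h1 : Jr (m ^ 2) p = 1 := by
    rw [pow_two, Pool.Agent.W108.RK.Jr_mul_left]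
    rcases Jr_pm hp hnd with h2 | h2 <;> rw [h2] <;> norm_num
  rw [h, Pool.Agent.W108.RK.Jr_mul_left, h1, mul_one]
  split_ifs
  · rfl
  · exact Pool.Agent.W108.RK.Jr_one_left _

lemma local_bound2 (κ0 : ℤ) (hκ0 : κ0 ≠ 0) (hκz : κ0.natAbs ≤ z) (cls : ι → J) (w : ι → ℝ) (L : ι → ι → Bool) (κ : ι → ℤ) (N : ι → Bool)
    (c : ℕ) (D : Finset J) (U : Finset ι) (β : J → ℝ) (A : Finset ι)
    (hA : A = univ.filter fun b => b ∈ U ∧ cls b ∈ D)
    (hw : ∀ i, 0 < w i) (hz2 : 2 ≤ z) (hc : 2 * c ≤ z) (hκ : ∀ i, (κ i).natAbs ≤ z)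
    (hK : KK2 κ0 cls κ N D)
    (hβ : ∀ c' ∈ D, ∀ u v : ι → ℝ, (∀ i, u i = 1 ∨ u i = -1) → (∀ i, v i = 1 ∨ v i = -1) →
      |LS cls w L N U c' (-1) u v| ≤ β c')
    (τ : Pr z y → Option (ι ⊕ J)) (p : Pr z y) :
    |∑ x ∈ univ.filter (fun x => ps A cls x = τ p), GG A w L κ c τ x p| ≤
      (τ p).elim 1 fun x => hb2 κ0 A w D (WS cls w U) β c x p := by
  have hpos := sub_pos' hz2 hc p
  have hmA : ∀ i, i ∈ A ↔ i ∈ U ∧ cls i ∈ D := by
    intro i; rw [hA]; simp
  rcases hτ : τ p with _ | (i | c')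
  · have h1 : (univ.filter fun x => ps A cls x = (none : Option (ι ⊕ J))) = {none} := by
      ext x
      rw [Finset.mem_filter, Finset.mem_singleton]
      unfold ps
      rw [Option.map_eq_none_iff]
      simp
    rw [h1, Finset.sum_singleton]
    unfold GG
    have h2 : ∀ q : Pr z y, ZZ A L (τ q) none q p = 1 := by
      intro q
      unfold ZZ
      rcases τ q with _ | (i | j) <;> simp
    simp [h2]
  · simp only [Option.elim_some, hb2, Sum.elim_inl]
    by_cases hi : i ∈ A
    · rw [if_pos hi]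
      have h1 : (univ.filter fun x => ps A cls x = some (Sum.inl i)) = ∅ := by
        ext x
        rw [Finset.mem_filter]
        unfold ps
        simp only [Finset.mem_univ, true_and, Option.map_eq_some_iff, Finset.notMem_empty, iff_false]
        rintro ⟨a, _, ha⟩
        split_ifs at ha with h2
        rw [Sum.inl.injEq] at ha
        rw [ha] at h2
        exact h2 hi
      rw [h1]
      simp
    · rw [if_neg hi]
      have h1 : (univ.filter fun x => ps A cls x = some (Sum.inl i)) = {some i} := by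
        ext x
        rw [Finset.mem_filter, Finset.mem_singleton]
        unfold ps
        simp only [Finset.mem_univ, true_and, Option.map_eq_some_iff]
        constructor
        · rintro ⟨a, hx, ha⟩
          split_ifs at ha with h2
          rw [Sum.inl.injEq] at ha
          rw [hx, ha]
        · rintro rfl
          exact ⟨i, rfl, by rw [if_neg hi]⟩
      rw [h1, Finset.sum_singleton]
      unfold GG
      simp only [Option.elim_some]
      rw [abs_mul, abs_of_nonneg (div_nonneg (hw i).le hpos.le)]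
      refine mul_le_of_le_one_right (div_nonneg (hw i).le hpos.le) ?_
      rw [abs_mul]
      refine mul_le_one₀ (abs_Jr_le _ _) (abs_nonneg _) ?_
      exact abs_prod_le_one _ _ fun q _ => abs_ZZ_le _ _ _ _ _ _
  · simp only [Option.elim_some, hb2, Sum.elim_inr]
    by_cases hD : c' ∈ D
    · rw [if_pos hD]
      have h1 : (univ.filter fun x => ps A cls x = some (Sum.inr c')) =
          (U.filter fun j => cls j = c').map Function.Embedding.some := by
        ext x
        rw [Finset.mem_filter, Finset.mem_map]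
        unfold ps
        simp only [Finset.mem_univ, true_and, Option.map_eq_some_iff, Finset.mem_filter,
          Function.Embedding.some_apply]
        constructor
        · rintro ⟨a, hx, ha⟩
          split_ifs at ha with h2
          rw [Sum.inr.injEq] at ha
          exact ⟨a, ⟨((hmA a).1 h2).1, ha⟩, hx.symm⟩
        · rintro ⟨a, ⟨h2, h3⟩, rfl⟩
          refine ⟨a, rfl, ?_⟩
          rw [if_pos ((hmA a).2 ⟨h2, by rw [h3]; exact hD⟩), h3]
      rw [h1, Finset.sum_map]
      set u : ι → ℝ := fun i => ∏ q : Pr z y, if τ q = some (Sum.inl i) then Jr (q : ℕ) p else 1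
        with hu
      set v : ι → ℝ := fun i => ∏ q : Pr z y, if τ q = some (Sum.inl i) then Jr (p : ℕ) q else 1
        with hv
      have hne : ∀ (i : ι) (q : Pr z y), τ q = some (Sum.inl i) → (q : ℕ) ≠ p := by
        intro i q hq hqp
        have h2 : q = p := Subtype.ext hqp
        rw [h2, hτ] at hq
        simp at hq
      have hu1 : ∀ i, u i = 1 ∨ u i = -1 := by
        intro i
        refine prod_pm _ _ fun q _ => ?_
        split_ifs with hq
        · exact Jr_prime_pm (Pr_prime q) (Pr_prime p) (hne i q hq)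
        · exact Or.inl rfl
      have hv1 : ∀ i, v i = 1 ∨ v i = -1 := by
        intro i
        refine prod_pm _ _ fun q _ => ?_
        split_ifs with hq
        · exact Jr_prime_pm (Pr_prime p) (Pr_prime q) (hne i q hq).symm
        · exact Or.inl rfl
      have h2 : ∑ x ∈ U.filter (fun j => cls j = c'),
            GG A w L κ c τ (Function.Embedding.some x) p =
          LS cls w L N U c' (Jr κ0 p) u v / ((p : ℝ) - c) := by
        unfold TF.LS
        rw [Finset.sum_div]
        refine Finset.sum_congr rfl fun j hj => ?_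
        obtain ⟨hj1, hj2⟩ := Finset.mem_filter.1 hj
        have hjA : j ∈ A := (hmA j).2 ⟨hj1, by rw [hj2]; exact hD⟩
        unfold GG
        simp only [Function.Embedding.some_apply, Option.elim_some]
        obtain ⟨m, hm, hm2⟩ := hK j (by rw [hj2]; exact hD)
        rw [prod_ZZ A L τ j hjA p, Jr_kappa2 hκ0 (hκ j) hm hm2]
        ring
      rw [h2, abs_div, abs_of_pos hpos]
      refine div_le_div_of_nonneg_right ?_ hpos.le
      have hp := Pr_prime p
      have hpg := Pr_gt p
      have hnd : ¬ ((p : ℕ) : ℤ) ∣ κ0 := by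
        intro hd
        rw [Int.natCast_dvd] at hd
        have h6 := Nat.le_of_dvd (Int.natAbs_pos.2 hκ0) hd
        omega
      have hJ := Jr_pm hp hnd
      by_cases h4 : jacobiSym κ0 (p : ℕ) = 1
      · rw [if_pos h4]
        have h5 : Jr κ0 p = 1 := by
          unfold Jr
          rw [h4, Int.cast_one]
        rw [h5]
        exact abs_LS_le cls w L N U c' hw u v hu1 hv1
      · rw [if_neg h4]
        have h5 : Jr κ0 p = -1 := by
          rcases hJ with h6 | h6
          · exfalso
            apply h4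
            unfold Jr at h6
            exact_mod_cast h6
          · exact h6
        rw [h5]
        exact hβ c' hD u v hu1 hv1
    · rw [if_neg hD]
      have h1 : (univ.filter fun x => ps A cls x = some (Sum.inr c')) = ∅ := by
        ext x
        rw [Finset.mem_filter]
        unfold ps
        simp only [Finset.mem_univ, true_and, Option.map_eq_some_iff, Finset.notMem_empty, iff_false]
        rintro ⟨a, _, ha⟩
        split_ifs at ha with h2
        rw [Sum.inr.injEq] at ha
        rw [← ha] at hD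
        exact hD ((hmA a).1 h2).2
      rw [h1]
      simp

open Classical in
/-- the sum over the fibres -/
lemma step2' (κ0 : ℤ) (hκ0 : κ0 ≠ 0) (hκz : κ0.natAbs ≤ z) (cls : ι → J) (w : ι → ℝ) (L : ι → ι → Bool) (κ : ι → ℤ) (N : ι → Bool)
    (c : ℕ) (D : Finset J) (U : Finset ι) (t : J → ℝ) (β : J → ℝ) (φ : (J → ℕ) → ℝ)
    (S : ι → Finset ℕ) (A : Finset ι)
    (hA : A = univ.filter fun b => b ∈ U ∧ cls b ∈ D)
    (hw : ∀ i, 0 < w i) (hz2 : 2 ≤ z) (hc : 2 * c ≤ z) (hκ : ∀ i, (κ i).natAbs ≤ z)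
    (hK : KK2 κ0 cls κ N D) (hL : LD cls L D)
    (hβ : ∀ c' ∈ D, ∀ u v : ι → ℝ, (∀ i, u i = 1 ∨ u i = -1) → (∀ i, v i = 1 ∨ v i = -1) →
      |LS cls w L N U c' (-1) u v| ≤ β c')
    (hφ : ∀ n, 0 ≤ φ n ∧ φ n ≤ ∏ j, t j ^ n j) :
    |∑ l : Pr z y → Option ι, if ∀ b, b ∉ A → Dl l b ∈ S b then
      HH w L κ c (Dl l) * φ (nc cls (Dl l)) else 0| ≤
    ∑ τ : Pr z y → Option (ι ⊕ J), if Cd A S (Dl τ) then
      ∏ p : Pr z y, (τ p).elim 1 (fun x => hb2 κ0 A w D (WS cls w U) β c x p *
        Sum.elim (fun i => t (cls i)) t x) else 0 := by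
  have hAL : ∀ i ∈ A, ∀ j ∈ A, L i j = false := by
    intro i hi j hj
    rw [hA] at hi hj
    exact hL i j (Finset.mem_filter.1 hi).2.2 (Finset.mem_filter.1 hj).2.2
  rw [← Finset.sum_fiberwise univ (fun l : Pr z y → Option ι => fun p => ps A cls (l p))]
  refine (Finset.abs_sum_le_sum_abs _ _).trans (Finset.sum_le_sum fun τ _ => ?_)
  set n : J → ℕ := fun j => (univ.filter fun p : Pr z y =>
    (τ p).map (Sum.elim cls id) = some j).card with hn
  have h1 : ∀ l ∈ univ.filter (fun l : Pr z y → Option ι => (fun p => ps A cls (l p)) = τ),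
      (if ∀ b, b ∉ A → Dl l b ∈ S b then HH w L κ c (Dl l) * φ (nc cls (Dl l)) else 0) =
      if Cd A S (Dl τ) then (∏ p : Pr z y, GG A w L κ c τ (l p) p) * φ n else 0 := by
    intro l hl
    have hl2 := (Finset.mem_filter.1 hl).2
    have e1 : (∀ b, b ∉ A → Dl l b ∈ S b) ↔ Cd A S (Dl τ) := by
      unfold Cd
      refine forall_congr' fun b => forall_congr' fun hb' => ?_
      rw [← hl2, Dl_ps A cls l b hb']
    have e2 : nc cls (Dl l) = n := by
      funext j
      rw [nc_Dl, hn]
      simp only [← hl2, map_ps]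
    rw [HH_Dl A cls w L κ c hAL l τ (fun p => congrFun hl2 p), e2]
    exact if_congr e1 rfl rfl
  rw [Finset.sum_congr rfl h1]
  by_cases hC : Cd A S (Dl τ)
  · simp only [if_pos hC]
    rw [← Finset.sum_mul, abs_mul, abs_of_nonneg (hφ n).1]
    have h2 : univ.filter (fun l : Pr z y → Option ι => (fun p => ps A cls (l p)) = τ) =
        Fintype.piFinset fun p => univ.filter fun x => ps A cls x = τ p := by
      ext l
      simp only [Finset.mem_filter, Finset.mem_univ, true_and, Fintype.mem_piFinset]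
      exact funext_iff
    have h2' : ∑ l ∈ Fintype.piFinset (fun p : Pr z y => univ.filter fun x => ps A cls x = τ p),
        ∏ p : Pr z y, GG A w L κ c τ (l p) p =
        ∏ p : Pr z y, ∑ x ∈ univ.filter (fun x => ps A cls x = τ p), GG A w L κ c τ x p :=
      (Finset.prod_univ_sum (fun p : Pr z y => univ.filter fun x => ps A cls x = τ p)
        (fun p x => GG A w L κ c τ x p)).symm
    rw [h2, h2', Finset.abs_prod]
    have h3 : ∏ p : Pr z y, |∑ x ∈ univ.filter (fun x => ps A cls x = τ p),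
        GG A w L κ c τ x p| ≤
        ∏ p : Pr z y, (τ p).elim 1 fun x => hb2 κ0 A w D (WS cls w U) β c x p :=
      Finset.prod_le_prod (fun p _ => abs_nonneg _) fun p _ =>
        local_bound2 κ0 hκ0 hκz cls w L κ N c D U β A hA hw hz2 hc hκ hK hβ τ p
    have h4 : φ n ≤ ∏ p : Pr z y, ((τ p).map (Sum.elim cls id)).elim 1 t := by
      rw [← prod_pow_card]
      exact (hφ n).2
    refine (mul_le_mul h3 h4 (hφ n).1 ((Finset.prod_nonneg fun p _ => abs_nonneg _).trans h3)).trans
      (le_of_eq ?_)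
    rw [← Finset.prod_mul_distrib]
    refine Finset.prod_congr rfl fun p _ => ?_
    rcases τ p with _ | (i | j) <;> simp
  · simp only [if_neg hC, Finset.sum_const_zero, abs_zero]
    exact le_rfl

open Classical in
/-- the final sum -/
lemma step3' (κ0 : ℤ) (cls : ι → J) (w : ι → ℝ) (c : ℕ) (D : Finset J) (W : J → ℝ) (t : J → ℝ) (β : J → ℝ)
    (S : ι → Finset ℕ) (A : Finset ι) (hw : ∀ i, 0 < w i) (hz2 : 2 ≤ z) (hc : 2 * c ≤ z)
    (ht : ∀ j, 0 < t j) (hβ : ∀ c' ∈ D, 0 ≤ β c' ∧ β c' ≤ W c')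
    (hS : ∀ i, S i ⊆ (PP z y).divisors) :
    (∑ τ : Pr z y → Option (ι ⊕ J), if Cd A S (Dl τ) then
      ∏ p : Pr z y, (τ p).elim 1 (fun x => hb2 κ0 A w D W β c x p *
        Sum.elim (fun i => t (cls i)) t x) else 0) ≤
    (∏ b ∈ univ.filter (fun b => ¬ (b ∈ A)), ∑ m ∈ S b, gw (w b * t (cls b)) c m) *
      ∏ c' ∈ D, ∑ s ∈ (PP z y).divisors, gab2 κ0 (t c' * W c') (t c' * β c') c s := by
  set K : ι ⊕ J → ℕ → ℝ := fun x p => hb2 κ0 A w D W β c x p * Sum.elim (fun i => t (cls i)) t x
    with hKdef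
  set g : ι ⊕ J → ℕ → ℝ := fun x m => ∏ p ∈ m.primeFactors, K x p with hg
  have hK0 : ∀ x, ∀ p ∈ PS z y, 0 ≤ K x p := by
    intro x p hp
    have hpos := sub_pos' hz2 hc (⟨p, hp⟩ : Pr z y)
    simp only at hpos
    simp only [hKdef]
    rcases x with i | j
    · simp only [hb2, Sum.elim_inl]
      refine mul_nonneg ?_ (ht _).le
      split_ifs
      · exact le_rfl
      · exact div_nonneg (hw i).le hpos.le
    · simp only [hb2, Sum.elim_inr]
      refine mul_nonneg ?_ (ht _).le
      split_ifs with h1 h2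
      · exact div_nonneg ((hβ j h1).1.trans (hβ j h1).2) hpos.le
      · exact div_nonneg (hβ j h1).1 hpos.le
      · exact le_rfl
  have hg0 : ∀ x, ∀ m ∈ (PP z y).divisors, 0 ≤ g x m := by
    intro x m hm
    refine Finset.prod_nonneg fun p hp => hK0 x p ?_
    rw [← PP_primeFactors z y]
    exact Nat.primeFactors_mono (Nat.mem_divisors.1 hm).1 (PP_ne_zero z y) hp
  have h1 : ∀ τ : Pr z y → Option (ι ⊕ J), (∏ p : Pr z y, (τ p).elim 1 fun x => K x p) =
      ∏ x, g x (Dl τ x) := fun τ => (prod_Dl_K K τ).symm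
  change (∑ τ : Pr z y → Option (ι ⊕ J), if Cd A S (Dl τ) then
    ∏ p : Pr z y, (τ p).elim 1 (fun x => K x p) else 0) ≤ _
  simp only [h1]
  rw [← Pool.Agent.W762.RK2.sum_Tup (z := z) (y := y) fun d =>
    if Cd A S d then ∏ x, g x (d x) else 0, ← Finset.sum_filter]
  set S' : ι ⊕ J → Finset ℕ := Sum.elim (fun b => if b ∈ A then (PP z y).divisors else S b)
    (fun _ => (PP z y).divisors) with hS'
  have hS'sub : ∀ x, S' x ⊆ (PP z y).divisors := by
    rintro (b | j)
    · simp only [hS', Sum.elim_inl]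
      split_ifs
      · exact Finset.Subset.refl _
      · exact hS b
    · simp only [hS', Sum.elim_inr]
      exact Finset.Subset.refl _
  have h2 : ∑ d ∈ (Tup (ι ⊕ J) z y).filter (fun d => Cd A S d), ∏ x, g x (d x) ≤
      ∑ d ∈ Fintype.piFinset S', ∏ x, g x (d x) := by
    apply Finset.sum_le_sum_of_subset_of_nonneg
    · intro d hd
      obtain ⟨h3, h4⟩ := Finset.mem_filter.1 hd
      obtain ⟨h5, _⟩ := Pool.Agent.W108.RK.mem_Tup.1 h3
      rw [Fintype.mem_piFinset]
      rintro (b | j)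
      · simp only [hS', Sum.elim_inl]
        by_cases hb' : b ∈ A
        · rw [if_pos hb']
          exact Nat.mem_divisors.2 ⟨h5 _, PP_ne_zero z y⟩
        · rw [if_neg hb']
          exact h4 b hb'
      · simp only [hS', Sum.elim_inr]
        exact Nat.mem_divisors.2 ⟨h5 _, PP_ne_zero z y⟩
    · intro d hd _
      rw [Fintype.mem_piFinset] at hd
      exact Finset.prod_nonneg fun x _ => hg0 x _ (hS'sub x (hd x))
  refine h2.trans (le_of_eq ?_)
  rw [← Finset.prod_univ_sum, Fintype.prod_sum_type]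
  congr 1
  · rw [Finset.prod_filter]
    refine Finset.prod_congr rfl fun b _ => ?_
    by_cases hb' : b ∈ A
    · rw [if_neg (not_not.2 hb')]
      simp only [hS', Sum.elim_inl, if_pos hb', hg, hKdef, hb2, zero_mul]
      exact sum_zero_prod _ (PP_ne_zero z y)
    · rw [if_pos hb']
      simp only [hS', Sum.elim_inl, if_neg hb', hg, hKdef, hb2]
      refine Finset.sum_congr rfl fun m _ => gw_mul' _ _ _ _
  · rw [← Finset.prod_subset (Finset.subset_univ D)]
    · refine Finset.prod_congr rfl fun j hj => ?_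
      simp only [hS', Sum.elim_inr, hg, hKdef, hb2, if_pos hj]
      refine Finset.sum_congr rfl fun m _ => ?_
      unfold gab2
      refine Finset.prod_congr rfl fun p _ => ?_
      split_ifs <;> ring
    · intro j _ hj
      simp only [hS', Sum.elim_inr, hg, hKdef, hb2, if_neg hj, zero_mul]
      exact sum_zero_prod _ (PP_ne_zero z y)

end

end ModREG2

theorem reg2 : S_REG2 := by
  intro κ0 J ι _ _ _ _ cls w L κ N c z y D U t β φ S hκ0 hκz hw hz2 hc hκ hK hL ht hβ hLS hφ hS
  set A : Finset ι := univ.filter fun b => b ∈ U ∧ cls b ∈ D with hA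
  have h0 : ∀ b, b ∈ A ↔ (b ∈ U ∧ cls b ∈ D) := by
    intro b; rw [hA]; simp
  have h1 := TF.ModREG.step1 (z := z) (y := y) cls w L κ c φ S A hS
  have h2 := ModREG2.step2' (z := z) (y := y) κ0 hκ0 hκz cls w L κ N c D U t β φ S A hA hw hz2 hc hκ hK hL
    hLS hφ
  have h3 := ModREG2.step3' (z := z) (y := y) κ0 cls w c D (WS cls w U) t β S A hw hz2 hc ht hβ hS
  rw [← h1] at h2
  have h4 := h2.trans h3
  simp only [h0] at h4
  exact h4

end Pool.Agent.T6.H30.UC
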