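import Mathlib
import Pool.Agent.T6.H30.UC.AC2
import Pool.Agent.T6.H30.UC.Reg2
import Pool.Agent.T6.H30.UC.Crit2
import Pool.Agent.T6.H30.UC.Atx2
import Pool.Agent.T6.H30.UC.CmbG
import Pool.Agent.T6.H30.UC.MafG
import Pool.Agent.TH344.BF.Main

/-! Project UC: the main average. -/

set_option autoImplicit false

namespace Pool.Agent.T6.H30.UC

open Pool.Agent.W307.RT Pool.Agent.TH344.DT Pool.Agent.TH344.BF

theorem mainMafG : S_MAFG := mafg (atx2 ful lnk (crit2 ful ac2 reg2)) cmbg expk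

end Pool.Agent.T6.H30.UC
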