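import Mathlib
import Pool.Agent.Results.MP_6cf96a_nt.RankTailsInShortSquares
import Pool.Agent.T6.H30.UC.Box
import Pool.Agent.T6.H30.UC.Main

/-!
# Large ranks are rare on all split elliptic surfaces with full 2-torsion and balanced classes

Let `F_0, F_1, F_2`, `F_0 - F_1 = F_2`, be binary forms of even degree which are constants times
products of powers of pairwise non-proportional linear forms, `n_k` forms in `F_k`,
`m = n_0 + n_1 + n_2`. The curves `y² = x (x - F_0 (u, v)) (x - F_1 (u, v))` are the fibres at `[u : v]`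
of a non-isotrivial elliptic surface. By Silverman's density conjecture `100 %` of them should have rank
`R` or `R + 1`. The starting file `RankTailsInShortSquares` treats the case `n_0 = n_1 = n_2` with odd
exponents. Here the classes can have different sizes: we only need `0 < 2 n_k ≤ m`, and if `2 n_k = m`
then at one of the zeros of `F_k` the tangents at the node of the singular fibre are not rational.
Exponents can be even if the tangents at the node of the corresponding fibre are rational.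

We show that large ranks are rarer than any exponential, and this uniformly in all squares of side `X`
with corners at most `X ^ L`, and that all the moments `A ^ rank` are bounded if a set of pairs of
density zero is omitted.

If `2 n_k = m` then the linked graph of the expansion of the moments has unlinked sets whose
contribution is too large by a power of a logarithm, before one uses the residue symbols of the
nonsquare constants: the sum over the assignments of the primes to the indices is a Gauss sum for the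
primes for which the constant is a nonresidue. The weights of the library (projects DT, JG, BF) have to
be chosen differently, too.
-/

set_option autoImplicit false

namespace Pool.Agent.T6.H30.UC.SF

open Finset Filter
open Pool.Agent.Results.MP_788af2_nt.RationalApproximations (E)
open Pool.Agent.Results.MP_6cf96a_nt.RankTailsInShortSquares (rank corank two_pow_le)

/-- The data of a family: `m` linear forms `l j = (α, β)`, which stands for `α u + β v`, the class
`cls j` of `l j`, the exponents `e j`, and integers `a k` (`k = 0, 1, 2`). -/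
structure Family where
  /-- number of linear forms -/
  m : ℕ
  /-- the classes of the linear forms -/
  cls : Fin m → Fin 3
  /-- the linear forms -/
  l : Fin m → ℤ × ℤ
  /-- the exponents -/
  e : Fin m → ℕ
  /-- constants -/
  a : Fin 3 → ℤ

namespace Family

/-- the value at `(u, v)` of the binary form `F_k = a_k ∏ (l j) ^ (e j)`, the product over the `j` of
the class `k` -/
def F (S : Family) (k : Fin 3) (u v : ℤ) : ℤ :=
  S.a k * ∏ j with S.cls j = k, ((S.l j).1 * u + (S.l j).2 * v) ^ S.e j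

/-- the number of the linear forms of the class `k` -/
def n (S : Family) (k : Fin 3) : ℕ := (univ.filter (fun j => S.cls j = k)).card

/-- The value at the zero `(u, v) = (-β, α)` of `l j = (α, β)` of the form `- F_1`, `- F_0`, `F_0` if
the class of `l j` is `0`, `1`, `2`. The singular fibre of `y² = x (x - F_0) (x - F_1)` at this point
has a node, and its tangents are rational if and only if this value is a square. -/
def node (S : Family) (j : Fin S.m) : ℤ :=
  if S.cls j = 0 then -S.F 1 (-(S.l j).2) (S.l j).1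
  else if S.cls j = 1 then -S.F 0 (-(S.l j).2) (S.l j).1
  else S.F 0 (-(S.l j).2) (S.l j).1

/-- The conditions: the `a k` are not zero, the exponents are positive, the linear forms are pairwise
non-proportional, `F_0 - F_1 = F_2`, the degrees of the `F_k` are even; if an exponent is even then
the tangents at the node of the corresponding singular fibre are rational; there is a linear form in
every class, and no class contains more than half of them; if a class contains half of the linear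
forms then for one of them the tangents at the node are not rational. -/
structure Ok (S : Family) : Prop where
  a_ne : ∀ k, S.a k ≠ 0
  e_pos : ∀ j, 0 < S.e j
  not_prop : ∀ i j, i ≠ j → (S.l i).1 * (S.l j).2 ≠ (S.l j).1 * (S.l i).2
  sub : ∀ u v : ℤ, S.F 0 u v - S.F 1 u v = S.F 2 u v
  even : ∀ k, Even (∑ j with S.cls j = k, S.e j)
  par : ∀ j, Odd (S.e j) ∨ IsSquare (S.node j)
  bal : ∀ k, 1 ≤ S.n k ∧ 2 * S.n k ≤ S.m
  crit : ∀ k, 2 * S.n k = S.m → ∃ j, S.cls j = k ∧ ¬ IsSquare (S.node j)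

/-- the fibre `y² = x (x - F_0 (u, v)) (x - F_1 (u, v))` at `(u, v)` -/
def curve (S : Family) (t : ℤ × ℤ) : WeierstrassCurve ℚ := E (S.F 0 t.1 t.2) (S.F 1 t.1 t.2)

/-- the fibre at `(u, v)` is an elliptic curve -/
def Smooth (S : Family) (t : ℤ × ℤ) : Prop := ∀ k, S.F k t.1 t.2 ≠ 0

/-- the sum of the Mordell-Weil rank of the fibre at `(u, v)` and of the corank of the 2-primary part of
its Tate-Shafarevich group -/
noncomputable def N (S : Family) (t : ℤ × ℤ) : ℕ := rank (S.curve t) + corank (S.curve t)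

end Family

/-- The coprime pairs `(u, v)` of `X` with `U < u ≤ U + M`, `V < v ≤ V + M` at which the fibre is an
elliptic curve. -/
def Square (S : Family) (U V : ℤ) (M : ℕ) (X : Set (ℤ × ℤ)) : Set (ℤ × ℤ) :=
  {t | (U < t.1 ∧ t.1 ≤ U + M) ∧ (V < t.2 ∧ t.2 ≤ V + M) ∧ IsCoprime t.1 t.2 ∧ S.Smooth t ∧ t ∈ X}

/-- The statement on the squares: for all `L` and `A ≥ 1`

(1) for all large `r` and all `X ≥ X₀ (r)`, `|U|, |V| ≤ X ^ L`, at most `X² / A ^ r` of the coprime
pairs of the square `(U, U + X] x (V, V + X]` have a fibre which is an elliptic curve with `N ≥ r`;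

(2) there is a set `Z` of pairs of density zero in these squares, uniformly in `U`, `V`, such that the
sum of `A ^ N` over the coprime pairs of the square outside of `Z` is at most `C X²`. -/
def InSquares (S : Family) : Prop :=
  (∀ L A : ℕ, 1 ≤ A → ∃ r₀ : ℕ, ∀ r : ℕ, r₀ ≤ r → ∃ X₀ : ℕ, ∀ X : ℕ, X₀ ≤ X → ∀ U V : ℤ,
    |U| ≤ (X : ℤ) ^ L → |V| ≤ (X : ℤ) ^ L → (Square S U V X {t | r ≤ S.N t}).Finite ∧
      ((Square S U V X {t | r ≤ S.N t}).ncard : ℝ) ≤ (X : ℝ) ^ 2 / (A : ℝ) ^ r) ∧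
  ∀ A : ℕ, 1 ≤ A → ∃ Z : Set (ℤ × ℤ), ∀ L : ℕ,
    (∀ ε : ℝ, 0 < ε → ∃ X₀ : ℕ, ∀ X : ℕ, X₀ ≤ X → ∀ U V : ℤ, |U| ≤ (X : ℤ) ^ L →
      |V| ≤ (X : ℤ) ^ L → ((Square S U V X Z).ncard : ℝ) ≤ ε * (X : ℝ) ^ 2) ∧
    ∃ C : ℝ, ∀ X : ℕ, 1 ≤ X → ∀ U V : ℤ, |U| ≤ (X : ℤ) ^ L → |V| ≤ (X : ℤ) ^ L →
      ∑ᶠ t ∈ Square S U V X Zᶜ, (A : ℝ) ^ S.N t ≤ C * (X : ℝ) ^ 2

/-! ### Proof: the weighted moments -/

namespace Family

open Pool.Agent.W262.RK Pool.Agent.W307.RT Pool.Agent.TH344.DT Pool.Agent.TH344.BF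
  Pool.Agent.X257.AE.BL Pool.Agent.T6.H30.UC

/-- the classes as elements of `Fin 4` -/
def c4 (S : Family) (j : Fin S.m) : Fin 4 := (S.cls j).castSucc

/-- the first coefficients -/
def al (S : Family) (j : Fin S.m) : ℤ := (S.l j).1

/-- the second coefficients -/
def be (S : Family) (j : Fin S.m) : ℤ := (S.l j).2

lemma fc_eq (S : Family) (k : Fin 3) : fc S.c4 k = univ.filter (fun j => S.cls j = k) := by
  unfold fc c4
  apply filter_congr
  intro j _
  rw [Fin.castSucc_inj]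

lemma FM_eq (S : Family) (u v : ℤ) (k : Fin 3) :
    FM S.c4 S.a S.e (fv S.al S.be u v) k = S.F k u v := by
  unfold FM F
  rw [fc_eq]
  rfl

lemma val_eq (S : Family) (j : Fin S.m) (k : Fin 3) :
    S.a k * ∏ l ∈ fc S.c4 k, Res S.al S.be j l ^ S.e l = S.F k (-(S.l j).2) (S.l j).1 := by
  unfold F
  rw [fc_eq]
  congr 1
  apply prod_congr rfl
  intro i _
  congr 1
  unfold Res al be
  ring

lemma kap_eq (S : Family) (j : Fin S.m) : kapM S.c4 S.a S.e S.al S.be j = S.node j := by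
  unfold kapM
  rw [val_eq]
  unfold node sgM cpM c4
  generalize S.cls j = c
  fin_cases c <;> simp

lemma nf_eq (S : Family) (k : Fin 3) : nf S.c4 k.castSucc = S.n k := by
  unfold nf n c4
  congr 1
  apply filter_congr
  intro j _
  rw [Fin.castSucc_inj]

lemma ex_c (c : Fin 4) (hc : c ≠ 3) : ∃ k : Fin 3, c = k.castSucc := by
  revert c
  decide

lemma pos {S : Family} (hS : S.Ok) : 2 ≤ S.m := by
  have h1 := hS.bal 0
  omega

lemma l_ne {S : Family} (hS : S.Ok) (j : Fin S.m) : ¬ (S.al j = 0 ∧ S.be j = 0) := by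
  rintro ⟨h1, h2⟩
  have h3 := pos hS
  obtain ⟨i, hi⟩ : ∃ i : Fin S.m, i ≠ j := by
    have : Nontrivial (Fin S.m) := Fin.nontrivial_iff_two_le.2 h3
    exact exists_ne j
  apply hS.not_prop i j hi
  have h1' : (S.l j).1 = 0 := h1
  have h2' : (S.l j).2 = 0 := h2
  rw [h1', h2', mul_zero, zero_mul]

/-- the weighted moments of the orders of the 2-Selmer groups in short squares -/
theorem box {S : Family} (hS : S.Ok) {k : ℕ} (hk : 1 ≤ k) :
    ∃ T : Finset (Fin S.m → ℝ), (∀ t ∈ T, ∀ j, 0 < t j) ∧ (∀ t ∈ T, 1 < ∏ j, t j) ∧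
      ∀ L : ℕ, 1 ≤ L → ∃ C : ℝ, 0 ≤ C ∧ BoxAvgL L (WB S.c4 S.a S.e S.al S.be k T) C 1 := by
  classical
  have h2 := pos hS
  have : Nonempty (Fin S.m) := ⟨⟨0, by omega⟩⟩
  have hc3 : ∀ j, S.c4 j ≠ 3 := by
    intro j
    unfold c4
    generalize S.cls j = c
    revert c
    decide
  refine box_gen mainMafG S.c4 S.a S.e S.al S.be hc3 hS.a_ne (fun j => hS.e_pos j) (l_ne hS)
    (fun j i hji => ?_) (fun k' => ?_) (fun j => ?_) (fun u v => ?_) (fun c hc => ?_)
    (fun c hc hcc => ?_) hk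
  · have h3 := hS.not_prop j i hji
    unfold Res al be
    intro h4
    apply h3
    have h4' : (S.l j).1 * (S.l i).2 - (S.l i).1 * (S.l j).2 = 0 := h4
    linarith
  · rw [fc_eq]
    exact hS.even k'
  · rw [kap_eq]
    exact hS.par j
  · rw [FM_eq, FM_eq, FM_eq]
    exact hS.sub u v
  · obtain ⟨k', rfl⟩ := ex_c c hc
    rw [nf_eq, Fintype.card_fin]
    exact hS.bal k'
  · obtain ⟨k', rfl⟩ := ex_c c hc
    rw [nf_eq, Fintype.card_fin] at hcc
    obtain ⟨j, h3, h4⟩ := hS.crit k' hcc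
    refine ⟨j, ?_, ?_⟩
    · unfold c4
      rw [h3]
    · rw [kap_eq]
      exact h4

/-- the pairs of small weight -/
def bad (S : Family) (T : Finset (Fin S.m → ℝ)) : Set (ℤ × ℤ) :=
  {t : ℤ × ℤ | (∀ j, fv S.al S.be t.1 t.2 j ≠ 0) ∧ rho T (omB S.al S.be t) < 1}

/-- one fibre -/
lemma pow_le {S : Family} (hS : S.Ok) (k : ℕ) {T : Finset (Fin S.m → ℝ)} {t : ℤ × ℤ}
    (hcop : IsCoprime t.1 t.2) (ht : S.Smooth t) (hb : t ∉ bad S T) :
    ((2 : ℝ) ^ k) ^ S.N t ≤ WB S.c4 S.a S.e S.al S.be k T t := by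
  classical
  have h0 : ∀ j, fv S.al S.be t.1 t.2 j ≠ 0 := by
    intro j hj
    apply ht (S.cls j)
    unfold Family.F
    apply mul_eq_zero_of_right
    have hmem : j ∈ univ.filter (fun i => S.cls i = S.cls j) := mem_filter.2 ⟨mem_univ j, rfl⟩
    apply prod_eq_zero hmem
    have h1 : (S.l j).1 * t.1 + (S.l j).2 * t.2 = 0 := hj
    rw [h1]
    exact zero_pow (hS.e_pos _).ne'
  have h3 : rho T (omB S.al S.be t) = 1 :=
    le_antisymm (rho_le_one _ _) (not_lt.1 fun h => hb ⟨h0, h⟩)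
  have hne : S.F 0 t.1 t.2 ≠ S.F 1 t.1 t.2 := by
    intro h
    apply ht 2
    rw [← hS.sub, h, sub_self]
  have h5 := two_pow_le (ht 0) (ht 1) hne
  unfold WB
  rw [if_pos ⟨hcop, h0⟩, h3, mul_one, FM_eq, FM_eq, ← pow_mul, mul_comm k, pow_mul]
  refine pow_le_pow_left₀ (by positivity) ?_ k
  exact_mod_cast h5

end Family

/-! ### Proof: the squares -/

open Pool.Agent.X257.AE (indP indP_nonneg)
open Pool.Agent.X257.AE.BL (BoxAvgL)
open Pool.Agent.TH344.BF (WB)
open Pool.Agent.T6.H30.UC (WB_nonneg)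

lemma finite_square (S : Family) (U V : ℤ) (M : ℕ) (X : Set (ℤ × ℤ)) :
    (Square S U V M X).Finite := by
  refine (finite_toSet (Ioc U (U + (M : ℤ)) ×ˢ Ioc V (V + (M : ℤ)))).subset ?_
  rintro t ⟨a1, a2, -⟩
  rw [mem_coe, mem_product, mem_Ioc, mem_Ioc]
  exact ⟨a1, a2⟩

lemma sum_square (S : Family) (U V : ℤ) (M : ℕ) (X : Set (ℤ × ℤ)) (f g : ℤ × ℤ → ℝ)
    (hg : ∀ t, 0 ≤ g t) (hfg : ∀ t ∈ X, IsCoprime t.1 t.2 → S.Smooth t → f t ≤ g t) :
    ∑ᶠ t ∈ Square S U V M X, f t ≤ ∑ t ∈ Ioc U (U + (M : ℤ)) ×ˢ Ioc V (V + (M : ℤ)), g t := by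
  have hf := finite_square S U V M X
  rw [finsum_mem_eq_finite_toFinset_sum _ hf]
  refine (sum_le_sum (g := g) fun t ht => ?_).trans
    (sum_le_sum_of_subset_of_nonneg (fun t ht => ?_) fun t _ _ => hg t)
  · obtain ⟨-, -, h3, h4, h5⟩ := hf.mem_toFinset.1 ht
    exact hfg t h5 h3 h4
  · obtain ⟨h1, h2, -⟩ := hf.mem_toFinset.1 ht
    rw [mem_product, mem_Ioc, mem_Ioc]
    exact ⟨h1, h2⟩

lemma ncard_eq {s : Set (ℤ × ℤ)} (h : s.Finite) : (s.ncard : ℝ) = ∑ᶠ t ∈ s, (1 : ℝ) := by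
  rw [Set.ncard_eq_toFinset_card _ h, finsum_mem_eq_finite_toFinset_sum _ h, sum_const,
    nsmul_eq_mul, mul_one]

lemma num {A r : ℕ} {C : ℝ} (hA : 1 ≤ A) (hC : 0 ≤ C) (hr : ⌈2 * C⌉₊ ≤ r) :
    1 / ((2 : ℝ) ^ A) ^ r * C ≤ 1 / 2 * (1 / (A : ℝ) ^ r) := by
  have hA0 : (0 : ℝ) < A := by
    have : 0 < A := hA
    exact_mod_cast this
  have e1 : (2 : ℝ) * A ≤ 2 ^ A := by
    have e2 : ∀ n : ℕ, 2 * (n + 1) ≤ 2 ^ (n + 1) := by
      intro n
      induction n with
      | zero => norm_num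
      | succ n ih =>
        have : 2 ^ (n + 1 + 1) = 2 * 2 ^ (n + 1) := by ring
        omega
    have e3 : 2 * A ≤ 2 ^ A := by
      obtain ⟨m, rfl⟩ : ∃ m, A = m + 1 := ⟨A - 1, by omega⟩
      exact e2 m
    exact_mod_cast e3
  have e2 : (2 * (A : ℝ)) ^ r ≤ ((2 : ℝ) ^ A) ^ r := pow_le_pow_left₀ (by positivity) e1 r
  have e3 : 2 * C ≤ 2 ^ r := by
    have e4 : 2 * C ≤ ⌈2 * C⌉₊ := Nat.le_ceil _
    have e5 : (⌈2 * C⌉₊ : ℝ) ≤ r := by exact_mod_cast hr
    have e6 : (r : ℝ) ≤ 2 ^ r := by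
      have : r ≤ 2 ^ r := Nat.lt_two_pow_self.le
      exact_mod_cast this
    linarith
  have e4 : 1 / ((2 : ℝ) ^ A) ^ r ≤ 1 / (2 * (A : ℝ)) ^ r :=
    one_div_le_one_div_of_le (by positivity) e2
  calc 1 / ((2 : ℝ) ^ A) ^ r * C ≤ 1 / (2 * (A : ℝ)) ^ r * C :=
        mul_le_mul_of_nonneg_right e4 hC
    _ = 1 / (A : ℝ) ^ r * (C / 2 ^ r) := by
        rw [mul_pow]
        field_simp
    _ ≤ 1 / (A : ℝ) ^ r * (1 / 2) := by
        refine mul_le_mul_of_nonneg_left ?_ (by positivity)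
        rw [div_le_iff₀ (by positivity)]
        linarith
    _ = 1 / 2 * (1 / (A : ℝ) ^ r) := by ring

/-- the rarity of the pairs of small weight -/
lemma bad_sq {S : Family} (hS : S.Ok) {T : Finset (Fin S.m → ℝ)} (hT1 : ∀ t ∈ T, ∀ j, 0 < t j)
    (hT2 : ∀ t ∈ T, 1 < ∏ j, t j) {L : ℕ} (hL : 1 ≤ L) (ε : ℝ) (hε : 0 < ε) :
    ∃ X0 : ℕ, BoxAvgL L (indP (S.bad T)) ε X0 :=
  Pool.Agent.X257.AE.BL.bad_sq hL S.al S.be (Family.l_ne hS) T hT1 hT2 ε hε

lemma one_le {S : Family} (hS : S.Ok) {k r : ℕ} {T : Finset (Fin S.m → ℝ)}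
    (hT : ∀ t ∈ T, ∀ j, 0 < t j) {t : ℤ × ℤ} (hcop : IsCoprime t.1 t.2) (ht : S.Smooth t)
    (hr : r ≤ S.N t) :
    1 ≤ indP (S.bad T) t + 1 / ((2 : ℝ) ^ k) ^ r * WB S.c4 S.a S.e S.al S.be k T t := by
  classical
  by_cases hb : t ∈ S.bad T
  · have h1 : indP (S.bad T) t = 1 := if_pos hb
    have h2 : 0 ≤ 1 / ((2 : ℝ) ^ k) ^ r * WB S.c4 S.a S.e S.al S.be k T t :=
      mul_nonneg (by positivity) (WB_nonneg _ _ _ _ _ _ hT t)
    linarith
  · have h1 := Family.pow_le hS k hcop ht hb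
    have h2 : ((2 : ℝ) ^ k) ^ r ≤ ((2 : ℝ) ^ k) ^ S.N t :=
      pow_le_pow_right₀ (one_le_pow₀ (by norm_num)) hr
    have h3 := indP_nonneg (S.bad T) t
    have h4 : 1 ≤ 1 / ((2 : ℝ) ^ k) ^ r * WB S.c4 S.a S.e S.al S.be k T t := by
      rw [one_div, inv_mul_eq_div, le_div_iff₀ (by positivity), one_mul]
      exact h2.trans h1
    linarith

/-- The statement `InSquares` on large ranks in squares holds for all the families which satisfy the
conditions `Ok`. -/
theorem squares (S : Family) (hS : S.Ok) : InSquares S := by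
  classical
  refine ⟨fun L A hA => ?_, fun A hA => ?_⟩
  · obtain ⟨T, hT1, hT2, hT3⟩ := Family.box hS (k := A) hA
    obtain ⟨C, hC0, hC⟩ := hT3 (L + 1) (by omega)
    have hA0 : (0 : ℝ) < A := by
      have : 0 < A := hA
      exact_mod_cast this
    refine ⟨⌈2 * C⌉₊, fun r hr => ?_⟩
    obtain ⟨X1, hX1⟩ := bad_sq hS hT1 hT2 (L := L + 1) (by omega) (1 / 2 * (1 / (A : ℝ) ^ r))
      (by positivity)
    refine ⟨X1 + 1, fun X hX U V hU hV => ?_⟩
    have hXpos : (1 : ℤ) ≤ X := by exact_mod_cast (by omega : 1 ≤ X)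
    have hp : (X : ℤ) ^ L ≤ (X : ℤ) ^ (L + 1) := pow_le_pow_right₀ hXpos (by omega)
    have h1 := hX1 X U V (by omega) (hU.trans hp) (hV.trans hp)
    have h2 := hC X U V (by omega) (hU.trans hp) (hV.trans hp)
    have hfin := finite_square S U V X {t | r ≤ S.N t}
    refine ⟨hfin, ?_⟩
    rw [ncard_eq hfin]
    refine (sum_square S U V X {t | r ≤ S.N t} (fun _ => 1) (fun t => indP (S.bad T) t +
      1 / ((2 : ℝ) ^ A) ^ r * WB S.c4 S.a S.e S.al S.be A T t)
      (fun t => add_nonneg (indP_nonneg _ _) (mul_nonneg (by positivity)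
        (WB_nonneg _ _ _ _ _ _ hT1 t))) fun t ht hcop hsm => one_le hS hT1 hcop hsm ht).trans ?_
    rw [sum_add_distrib, ← mul_sum]
    have h4 := mul_le_mul_of_nonneg_right (num hA hC0 hr) (sq_nonneg (X : ℝ))
    have h5 : 1 / ((2 : ℝ) ^ A) ^ r * ∑ t ∈ Ioc U (U + (X : ℤ)) ×ˢ Ioc V (V + (X : ℤ)),
        WB S.c4 S.a S.e S.al S.be A T t ≤ 1 / ((2 : ℝ) ^ A) ^ r * (C * (X : ℝ) ^ 2) :=
      mul_le_mul_of_nonneg_left h2 (by positivity)
    have h6 : (X : ℝ) ^ 2 / (A : ℝ) ^ r = 1 / 2 * (1 / (A : ℝ) ^ r) * (X : ℝ) ^ 2 +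
        1 / 2 * (1 / (A : ℝ) ^ r) * (X : ℝ) ^ 2 := by ring
    rw [h6]
    rw [← mul_assoc] at h5
    exact add_le_add h1 (h5.trans h4)
  · obtain ⟨T, hT1, hT2, hT3⟩ := Family.box hS (k := A) hA
    refine ⟨S.bad T, fun L => ⟨fun ε hε => ?_, ?_⟩⟩
    · obtain ⟨X1, hX1⟩ := bad_sq hS hT1 hT2 (L := L + 1) (by omega) ε hε
      refine ⟨X1 + 1, fun X hX U V hU hV => ?_⟩
      have hXpos : (1 : ℤ) ≤ X := by exact_mod_cast (by omega : 1 ≤ X)
      have hp : (X : ℤ) ^ L ≤ (X : ℤ) ^ (L + 1) := pow_le_pow_right₀ hXpos (by omega)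
      have h1 := hX1 X U V (by omega) (hU.trans hp) (hV.trans hp)
      rw [ncard_eq (finite_square S U V X (S.bad T))]
      refine (sum_square S U V X (S.bad T) (fun _ => 1) (indP (S.bad T)) (indP_nonneg _)
        fun t ht _ _ => ?_).trans h1
      have e1 : indP (S.bad T) t = 1 := if_pos ht
      rw [e1]
    · obtain ⟨C, hC0, hC⟩ := hT3 (L + 1) (by omega)
      refine ⟨C, fun X hX U V hU hV => ?_⟩
      have hXpos : (1 : ℤ) ≤ X := by exact_mod_cast hX
      have hp : (X : ℤ) ^ L ≤ (X : ℤ) ^ (L + 1) := pow_le_pow_right₀ hXpos (by omega)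
      refine (sum_square S U V X (S.bad T)ᶜ (fun t => (A : ℝ) ^ S.N t)
        (WB S.c4 S.a S.e S.al S.be A T) (WB_nonneg _ _ _ _ _ _ hT1) fun t ht hcop hsm => ?_).trans
        (hC X U V hX (hU.trans hp) (hV.trans hp))
      refine le_trans ?_ (Family.pow_le hS A hcop hsm ht)
      refine pow_le_pow_left₀ (Nat.cast_nonneg A) ?_ _
      have : A < 2 ^ A := Nat.lt_two_pow_self
      exact_mod_cast this.le

end Pool.Agent.T6.H30.UC.SF
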