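import Mathlib
import Pool.Agent.T6.H30.UC.Fam
import Pool.Agent.X257.AE.BoxTails
import Pool.Agent.X257.AE.ApproxZero

/-!
# Project UC: large ranks over the good approximations of a real number, all the split families
-/

set_option autoImplicit false

namespace Pool.Agent.T6.H30.UC.SF

open Finset Filter MeasureTheory
open Pool.Agent.Results.MP_788af2_nt.RationalApproximations (E Approx finite_approx)
open Pool.Agent.X257.AE (indP indP_nonneg nd BoxAvg Ap)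
open Pool.Agent.X257.AE.BL (BoxAvgL)
open Pool.Agent.TH344.BF (WB)
open Pool.Agent.T6.H30.UC (WB_nonneg)

/-- the rational number `t = u / v`, in lowest terms, `v > 0`, as a pair `(u, v)` -/
def pair (t : ℚ) : ℤ × ℤ := (t.num, t.den)

/-- The rational numbers `t = u / v` of `X` with `2 ≤ v ≤ Q` and `|α - t| ≤ c / v²` at which the fibre
is an elliptic curve. -/
def Good (S : Family) (α : ℝ) (c Q : ℕ) (X : Set ℚ) : Set ℚ :=
  {t | t ∈ Approx α c Q ∧ S.Smooth (pair t) ∧ t ∈ X}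

/-! ### Proof: the good approximations -/

instance : Countable Family := by
  have h : Function.Injective (fun S : Family => (⟨S.m, S.cls, S.l, S.e, S.a⟩ :
      Σ n : ℕ, (Fin n → Fin 3) × (Fin n → ℤ × ℤ) × (Fin n → ℕ) × (Fin 3 → ℤ))) := by
    rintro ⟨n, c, l, e, a⟩ ⟨n', c', l', e', a'⟩ h
    simp only [Sigma.mk.injEq] at h
    obtain ⟨rfl, h⟩ := h
    simp only [heq_eq_eq, Prod.mk.injEq] at h
    obtain ⟨rfl, rfl, rfl, rfl⟩ := h
    rfl
  exact h.countable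

theorem finite_good (S : Family) (α : ℝ) (c Q : ℕ) (X : Set ℚ) : (Good S α c Q X).Finite :=
  (finite_approx α c Q).subset fun _ h => h.1

/-- one fibre -/
theorem pow_le {S : Family} (hS : S.Ok) {k : ℕ} {T : Finset (Fin S.m → ℝ)} {t : ℚ}
    (ht : S.Smooth (pair t)) (hb : pair t ∉ S.bad T) :
    ((2 : ℝ) ^ k) ^ S.N (pair t) ≤ Real.sqrt (WB S.c4 S.a S.e S.al S.be (2 * k) T (nd t)) := by
  classical
  have hcop : IsCoprime (pair t).1 (pair t).2 := by
    unfold pair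
    rw [Int.isCoprime_iff_gcd_eq_one]
    exact t.reduced
  have h1 := Family.pow_le hS (2 * k) hcop ht hb
  apply Real.le_sqrt_of_sq_le
  have h2 : (((2 : ℝ) ^ k) ^ S.N (pair t)) ^ 2 = ((2 : ℝ) ^ (2 * k)) ^ S.N (pair t) := by
    rw [← pow_mul, ← pow_mul, ← pow_mul]
    congr 1
    ring
  rw [h2]
  exact h1

/-- sums over the good approximations in a set -/
theorem sum_le (S : Family) (α : ℝ) (c Q : ℕ) (X : Set ℚ) (f : ℚ → ℝ) (g : ℤ × ℤ → ℝ)
    (hg : ∀ x, 0 ≤ g x) (hfg : ∀ t ∈ X, S.Smooth (pair t) → f t ≤ g (nd t)) :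
    ∑ᶠ t ∈ Good S α c Q X, f t / Real.log t.den ≤ ∑ᶠ t ∈ Ap α c Q, g (nd t) / Real.log t.den := by
  classical
  have hA : (Ap α c Q).Finite := finite_approx α c Q
  rw [finsum_mem_eq_finite_toFinset_sum _ (finite_good S α c Q X),
    finsum_mem_eq_finite_toFinset_sum _ hA]
  refine (sum_le_sum (g := fun t : ℚ => g (nd t) / Real.log t.den) fun t ht => ?_).trans
    (sum_le_sum_of_subset_of_nonneg (fun t ht => ?_) fun t _ _ =>
      div_nonneg (hg _) (Real.log_natCast_nonneg _))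
  · obtain ⟨-, h2, h3⟩ := (finite_good S α c Q X).mem_toFinset.1 ht
    exact div_le_div_of_nonneg_right (hfg t h3 h2) (Real.log_natCast_nonneg _)
  · exact hA.mem_toFinset.2 ((finite_good S α c Q X).mem_toFinset.1 ht).1

/-- the data for one family and one `A` -/
theorem exT (S : Family) (A : ℕ) : ∃ T : Finset (Fin S.m → ℝ), S.Ok → 1 ≤ A →
    (∀ t ∈ T, ∀ j, 0 < t j) ∧
    (∀ ε : ℝ, 0 < ε → ∃ X0 : ℕ, BoxAvg (indP (S.bad T)) ε X0) ∧
    ∃ p : ℝ, 0 ≤ p ∧ BoxAvg (WB S.c4 S.a S.e S.al S.be (2 * A) T) p 1 := by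
  by_cases h : S.Ok ∧ 1 ≤ A
  · obtain ⟨h1, h3⟩ := h
    obtain ⟨T, hT1, hT2, hT3⟩ := Family.box h1 (k := 2 * A) (by omega)
    obtain ⟨C, hC0, hC⟩ := hT3 4 (by norm_num)
    exact ⟨T, fun _ _ => ⟨hT1, fun ε hε => bad_sq h1 hT1 hT2 (L := 4) (by norm_num) ε hε,
      C, hC0, hC⟩⟩
  · exact ⟨∅, fun h1 h3 => absurd ⟨h1, h3⟩ h⟩

/-- the constant -/
theorem exC (S : Family) (A : ℕ) (T : Finset (Fin S.m → ℝ))
    (hT : S.Ok → 1 ≤ A → (∀ t ∈ T, ∀ j, 0 < t j) ∧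
      (∀ ε : ℝ, 0 < ε → ∃ X0 : ℕ, BoxAvg (indP (S.bad T)) ε X0) ∧
      ∃ p : ℝ, 0 ≤ p ∧ BoxAvg (WB S.c4 S.a S.e S.al S.be (2 * A) T) p 1) (c : ℕ) (K : ℤ) :
    ∃ C : ℝ, 0 ≤ C ∧ (S.Ok → 1 ≤ A → ∀ᵐ α : ℝ, α ∈ Set.Ico (K : ℝ) (K + 1) →
      ∀ᶠ Q : ℕ in atTop, ∑ᶠ t ∈ Ap α c Q,
        Real.sqrt (WB S.c4 S.a S.e S.al S.be (2 * A) T (nd t)) / Real.log t.den ≤
          C * Real.log (Real.log Q)) := by
  by_cases h : S.Ok ∧ 1 ≤ A
  · obtain ⟨h1, h3⟩ := h
    obtain ⟨hT1, -, p, hp, hB⟩ := hT h1 h3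
    obtain ⟨C, hC, hC'⟩ := Pool.Agent.X257.AE.ae_ap
      (fun t => WB_nonneg S.c4 S.a S.e S.al S.be (2 * A) hT1 t) hp hB K c
    refine ⟨C, hC, fun _ _ => ?_⟩
    filter_upwards [hC'] with α hα hK
    exact (hα hK).1
  · exact ⟨0, le_rfl, fun h1 h3 => absurd ⟨h1, h3⟩ h⟩

theorem approximations : ∃ (r₀ : Family → ℕ → ℤ → ℕ → ℕ) (C : Family → ℕ → ℤ → ℕ → ℝ)
    (Z : Family → ℕ → Set ℚ), ∀ᵐ α : ℝ, ∀ S : Family, S.Ok → ∀ c : ℕ,
    (∀ A : ℕ, 1 ≤ A → ∀ r : ℕ, r₀ S c ⌊α⌋ A ≤ r → ∀ᶠ Q : ℕ in atTop,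
      ∑ᶠ t ∈ Good S α c Q {t | r ≤ S.N (pair t)}, 1 / Real.log t.den ≤
        Real.log (Real.log Q) / (A : ℝ) ^ r) ∧
    (∀ h : ℕ → ℝ, Tendsto h atTop atTop → ∀ ε : ℝ, 0 < ε → ∀ᶠ Q : ℕ in atTop,
      ∑ᶠ t ∈ Good S α c Q {t | h t.den < S.N (pair t)}, 1 / Real.log t.den ≤
        ε * Real.log (Real.log Q)) ∧
    ∀ A : ℕ, 1 ≤ A →
      (∀ ε : ℝ, 0 < ε → ∀ᶠ Q : ℕ in atTop,
        ∑ᶠ t ∈ Good S α c Q (Z S A), 1 / Real.log t.den ≤ ε * Real.log (Real.log Q)) ∧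
      ∀ᶠ Q : ℕ in atTop, ∑ᶠ t ∈ Good S α c Q (Z S A)ᶜ, (A : ℝ) ^ S.N (pair t) / Real.log t.den ≤
        C S c ⌊α⌋ A * Real.log (Real.log Q) := by
  classical
  choose T hT using exT
  choose C hC0 hC using fun (S : Family) (A : ℕ) => exC S A (T S A) (hT S A)
  refine ⟨fun S c K A => ⌈2 * C S A c K⌉₊, fun S c K A => C S A c K,
    fun S A => {t | pair t ∈ S.bad (T S A)}, ?_⟩
  rw [ae_all_iff]
  intro S
  by_cases hS : S.Ok
  swap
  · exact Eventually.of_forall fun α h1 => absurd h1 hS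
  simp only [hS, forall_true_left]
  rw [ae_all_iff]
  intro c
  have h1 : ∀ᵐ α : ℝ, ∀ A : ℕ, 1 ≤ A → ∀ ε : ℝ, 0 < ε → ∀ᶠ Q : ℕ in atTop,
      ∑ᶠ t ∈ Ap α c Q, indP (S.bad (T S A)) (nd t) / Real.log t.den ≤
        ε * Real.log (Real.log Q) := by
    rw [ae_all_iff]
    intro A
    by_cases hA : 1 ≤ A
    · filter_upwards [Pool.Agent.X257.AE.ae_ap_zero (hT S A hS hA).2.1 c] with α hα _
      exact hα
    · exact Eventually.of_forall fun α h => absurd h hA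
  have h2 : ∀ᵐ α : ℝ, ∀ (A : ℕ) (K : ℤ), 1 ≤ A → α ∈ Set.Ico (K : ℝ) (K + 1) →
      ∀ᶠ Q : ℕ in atTop, ∑ᶠ t ∈ Ap α c Q,
        Real.sqrt (WB S.c4 S.a S.e S.al S.be (2 * A) (T S A) (nd t)) / Real.log t.den ≤
          C S A c K * Real.log (Real.log Q) := by
    rw [ae_all_iff]
    intro A
    rw [ae_all_iff]
    intro K
    by_cases hA : 1 ≤ A
    · filter_upwards [hC S A c K hS hA] with α hα _
      exact hα
    · exact Eventually.of_forall fun α h => absurd h hA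
  have hll : ∀ᶠ Q : ℕ in atTop, 0 ≤ Real.log (Real.log (Q : ℝ)) :=
    (Real.tendsto_log_atTop.comp
      (Real.tendsto_log_atTop.comp tendsto_natCast_atTop_atTop)).eventually_ge_atTop 0
  filter_upwards [h1, h2] with α hα1 hα2
  have hK : α ∈ Set.Ico ((⌊α⌋ : ℤ) : ℝ) (⌊α⌋ + 1) := ⟨Int.floor_le α, Int.lt_floor_add_one α⟩
  -- the tails
  have hmain : ∀ A : ℕ, 1 ≤ A → ∀ r : ℕ, ⌈2 * C S A c ⌊α⌋⌉₊ ≤ r → ∀ᶠ Q : ℕ in atTop,
      ∑ᶠ t ∈ Good S α c Q {t | r ≤ S.N (pair t)}, 1 / Real.log t.den ≤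
        Real.log (Real.log Q) / (A : ℝ) ^ r := by
    intro A hA r hr
    have hA0 : (0 : ℝ) < A := by
      have : 0 < A := hA
      exact_mod_cast this
    filter_upwards [hα1 A hA (1 / 2 * (1 / (A : ℝ) ^ r)) (by positivity), hα2 A ⌊α⌋ hA hK, hll]
      with Q hQ1 hQ2 hQ0
    have hapf : (Ap α c Q).Finite := finite_approx α c Q
    have h3 := sum_le S α c Q {t | r ≤ S.N (pair t)} (fun _ => 1)
      (fun x => indP (S.bad (T S A)) x + 1 / ((2 : ℝ) ^ A) ^ r *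
        Real.sqrt (WB S.c4 S.a S.e S.al S.be (2 * A) (T S A) x))
      (fun x => add_nonneg (indP_nonneg _ _) (by positivity)) (fun t ht hsm => by
        by_cases hb : pair t ∈ S.bad (T S A)
        · have e1 : indP (S.bad (T S A)) (nd t) = 1 := if_pos hb
          have e2 : 0 ≤ 1 / ((2 : ℝ) ^ A) ^ r *
              Real.sqrt (WB S.c4 S.a S.e S.al S.be (2 * A) (T S A) (nd t)) := by positivity
          change 1 ≤ _
          linarith
        · have e1 := pow_le hS (k := A) hsm hb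
          have e2 : ((2 : ℝ) ^ A) ^ r ≤ ((2 : ℝ) ^ A) ^ S.N (pair t) :=
            pow_le_pow_right₀ (one_le_pow₀ (by norm_num)) ht
          have e3 := indP_nonneg (S.bad (T S A)) (nd t)
          have e4 : 1 ≤ 1 / ((2 : ℝ) ^ A) ^ r *
              Real.sqrt (WB S.c4 S.a S.e S.al S.be (2 * A) (T S A) (nd t)) := by
            rw [one_div, inv_mul_eq_div, le_div_iff₀ (by positivity), one_mul]
            exact e2.trans e1
          change 1 ≤ _
          linarith)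
    refine h3.trans ?_
    have h4 : ∑ᶠ t ∈ Ap α c Q, (indP (S.bad (T S A)) (nd t) + 1 / ((2 : ℝ) ^ A) ^ r *
        Real.sqrt (WB S.c4 S.a S.e S.al S.be (2 * A) (T S A) (nd t))) / Real.log t.den =
        ∑ᶠ t ∈ Ap α c Q, indP (S.bad (T S A)) (nd t) / Real.log t.den +
        1 / ((2 : ℝ) ^ A) ^ r * ∑ᶠ t ∈ Ap α c Q,
          Real.sqrt (WB S.c4 S.a S.e S.al S.be (2 * A) (T S A) (nd t)) / Real.log t.den := by
      rw [finsum_mem_eq_finite_toFinset_sum _ hapf, finsum_mem_eq_finite_toFinset_sum _ hapf,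
        finsum_mem_eq_finite_toFinset_sum _ hapf, mul_sum, ← sum_add_distrib]
      refine sum_congr rfl fun t _ => ?_
      ring
    rw [h4]
    have h5 : 1 / ((2 : ℝ) ^ A) ^ r * ∑ᶠ t ∈ Ap α c Q,
        Real.sqrt (WB S.c4 S.a S.e S.al S.be (2 * A) (T S A) (nd t)) / Real.log t.den ≤
        1 / ((2 : ℝ) ^ A) ^ r * (C S A c ⌊α⌋ * Real.log (Real.log Q)) :=
      mul_le_mul_of_nonneg_left hQ2 (by positivity)
    have h6 : 1 / ((2 : ℝ) ^ A) ^ r * (C S A c ⌊α⌋ * Real.log (Real.log Q)) ≤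
        1 / 2 * (1 / (A : ℝ) ^ r) * Real.log (Real.log Q) := by
      rw [← mul_assoc]
      exact mul_le_mul_of_nonneg_right (num hA (hC0 _ _ _ _) hr) hQ0
    have h7 : Real.log (Real.log Q) / (A : ℝ) ^ r =
        1 / 2 * (1 / (A : ℝ) ^ r) * Real.log (Real.log Q) +
        1 / 2 * (1 / (A : ℝ) ^ r) * Real.log (Real.log Q) := by ring
    rw [h7]
    exact add_le_add hQ1 (h5.trans h6)
  refine ⟨hmain, fun h hh ε hε => ?_, fun A hA => ⟨fun ε hε => ?_, ?_⟩⟩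
  · -- a function tending to infinity
    obtain ⟨r1, hr1⟩ := exists_pow_lt_of_lt_one (show (0 : ℝ) < ε / 2 by positivity)
      (show (1 / 2 : ℝ) < 1 by norm_num)
    set r := max r1 ⌈2 * C S 2 c ⌊α⌋⌉₊ with hr
    have hr2 : ((2 : ℕ) : ℝ) ^ r * (ε / 2) ≥ 1 := by
      have e1 : (1 / 2 : ℝ) ^ r ≤ ε / 2 :=
        (pow_le_pow_of_le_one (by norm_num) (by norm_num) (le_max_left _ _)).trans hr1.le
      rw [one_div, inv_pow] at e1
      have e2 : (0 : ℝ) < 2 ^ r := by positivity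
      rw [inv_le_iff_one_le_mul₀ e2] at e1
      push_cast
      linarith
    obtain ⟨D, hD⟩ := (hh.eventually_ge_atTop (r : ℝ)).exists_forall_of_atTop
    have hlog : Tendsto (fun x : ℕ => Real.log (Real.log (x : ℝ))) atTop atTop :=
      Real.tendsto_log_atTop.comp (Real.tendsto_log_atTop.comp tendsto_natCast_atTop_atTop)
    set M : ℝ := ∑ᶠ t ∈ Approx α c D, 1 / Real.log t.den with hM
    filter_upwards [hmain 2 (by norm_num) r (le_max_right _ _),
      hlog.eventually_ge_atTop (M / (ε / 2)), hll] with Q hQ1 hQ2 hQ0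
    have hf1 := finite_good S α c Q {t | h t.den < S.N (pair t)}
    have hf2 := finite_good S α c Q {t | r ≤ S.N (pair t)}
    have hf3 := finite_approx α c D
    have h3 : ∑ᶠ t ∈ Good S α c Q {t | h t.den < S.N (pair t)}, 1 / Real.log t.den ≤
        ∑ᶠ t ∈ Good S α c Q {t | r ≤ S.N (pair t)}, 1 / Real.log t.den + M := by
      rw [hM, finsum_mem_eq_finite_toFinset_sum _ hf1, finsum_mem_eq_finite_toFinset_sum _ hf2,
        finsum_mem_eq_finite_toFinset_sum _ hf3]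
      have hnn : ∀ t : ℚ, 0 ≤ 1 / Real.log t.den := fun t =>
        div_nonneg zero_le_one (Real.log_natCast_nonneg _)
      refine le_trans (sum_le_sum_of_subset_of_nonneg (t := hf2.toFinset ∪ hf3.toFinset)
        (fun t ht => ?_) fun t _ _ => hnn t) ?_
      · obtain ⟨⟨a1, a2, a3⟩, b, d⟩ := hf1.mem_toFinset.1 ht
        rw [mem_union]
        rcases le_or_gt D t.den with hDt | hDt
        · left
          refine hf2.mem_toFinset.2 ⟨⟨a1, a2, a3⟩, b, ?_⟩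
          have e1 := hD _ hDt
          have e2 : h t.den < S.N (pair t) := d
          have e3 : (r : ℝ) < S.N (pair t) := lt_of_le_of_lt e1 e2
          exact_mod_cast e3.le
        · right
          exact hf3.mem_toFinset.2 ⟨a1, hDt.le, a3⟩
      · rw [← sum_union_inter]
        exact le_add_of_nonneg_right (sum_nonneg fun t _ => hnn t)
    refine h3.trans ?_
    have h4 : Real.log (Real.log Q) / ((2 : ℕ) : ℝ) ^ r ≤ ε / 2 * Real.log (Real.log Q) := by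
      rw [div_le_iff₀ (by positivity)]
      nlinarith
    have h5 : M ≤ ε / 2 * Real.log (Real.log Q) := by
      rw [div_le_iff₀ (by positivity)] at hQ2
      linarith
    linarith
  · filter_upwards [hα1 A hA ε hε] with Q hQ
    refine (sum_le S α c Q {t | pair t ∈ S.bad (T S A)} (fun _ => 1) (indP (S.bad (T S A)))
      (indP_nonneg _) (fun t ht _ => ?_)).trans hQ
    have e1 : indP (S.bad (T S A)) (nd t) = 1 := if_pos ht
    rw [e1]
  · filter_upwards [hα2 A ⌊α⌋ hA hK] with Q hQ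
    refine (sum_le S α c Q {t | pair t ∈ S.bad (T S A)}ᶜ (fun t => (A : ℝ) ^ S.N (pair t))
      (fun x => Real.sqrt (WB S.c4 S.a S.e S.al S.be (2 * A) (T S A) x))
      (fun x => Real.sqrt_nonneg _) (fun t ht hsm => ?_)).trans hQ
    refine le_trans ?_ (pow_le hS (k := A) hsm ht)
    refine pow_le_pow_left₀ (Nat.cast_nonneg A) ?_ _
    have : A < 2 ^ A := Nat.lt_two_pow_self
    exact_mod_cast this.le

end Pool.Agent.T6.H30.UC.SF
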