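import Mathlib
import Pool.Agent.W29.RT.LOW4
import Pool.Agent.W605.RT.PAR4
import Pool.Agent.W307.RT.Tors

/-!
# The curves `y² = x (x + a²) (x + b²)`
-/

set_option autoImplicit false

namespace Pool.Agent.T6.H30.UC

open Finset Pool.Agent.W307.RT WeierstrassCurve

/-- the curve `y² = x (x + a²) (x + b²)` -/
def E4 (a b : ℚ) : WeierstrassCurve ℚ := ⟨0, a ^ 2 + b ^ 2, 0, a ^ 2 * b ^ 2, 0⟩

lemma e4_nons {a b x y : ℚ} (h : y ^ 2 = x ^ 3 + (a ^ 2 + b ^ 2) * x ^ 2 + a ^ 2 * b ^ 2 * x)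
    (h2 : y ≠ 0 ∨ 3 * x ^ 2 + 2 * (a ^ 2 + b ^ 2) * x + a ^ 2 * b ^ 2 ≠ 0) :
    (E4 a b).toAffine.Nonsingular x y := by
  rw [Affine.nonsingular_iff, Affine.equation_iff]
  simp only [E4]
  refine ⟨by linear_combination h, ?_⟩
  rcases h2 with h2 | h2
  · right
    intro h3
    apply h2
    linarith
  · left
    intro h3
    apply h2
    linarith

lemma e4_neg {a b x y : ℚ} : (E4 a b).toAffine.negY x y = -y := by
  simp [Affine.negY, E4]

lemma e4_hasT {a b : ℚ} (ha : a ≠ 0) (hb : b ≠ 0) (hab : a + b ≠ 0) (hab' : a - b ≠ 0) :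
    HasT 4 (E4 a b) := by
  have hy : a * b * (a + b) ≠ 0 := by positivity
  have hP : (E4 a b).toAffine.Nonsingular (a * b) (a * b * (a + b)) := by
    apply e4_nons _ (Or.inl hy)
    ring
  have hR : (E4 a b).toAffine.Nonsingular 0 0 := by
    apply e4_nons _ (Or.inr _)
    · ring
    · have : 3 * (0 : ℚ) ^ 2 + 2 * (a ^ 2 + b ^ 2) * 0 + a ^ 2 * b ^ 2 = a ^ 2 * b ^ 2 := by ring
      rw [this]; positivity
  have hQ : (E4 a b).toAffine.Nonsingular (-a ^ 2) 0 := by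
    apply e4_nons _ (Or.inr _)
    · ring
    · have : 3 * (-a ^ 2 : ℚ) ^ 2 + 2 * (a ^ 2 + b ^ 2) * (-a ^ 2) + a ^ 2 * b ^ 2 =
        a ^ 2 * ((a + b) * (a - b)) := by ring
      rw [this]; positivity
  set P : (E4 a b).toAffine.Point := .some _ _ hP with hPd
  set R : (E4 a b).toAffine.Point := .some _ _ hR with hRd
  set Q : (E4 a b).toAffine.Point := .some _ _ hQ with hQd
  have hRR : R + R = 0 := by
    rw [hRd]
    apply Affine.Point.add_self_of_Y_eq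
    rw [e4_neg]; simp
  have hQQ : Q + Q = 0 := by
    rw [hQd]
    apply Affine.Point.add_self_of_Y_eq
    rw [e4_neg]; simp
  have hPP : P + P = R := by
    have hne : a * b * (a + b) ≠ (E4 a b).toAffine.negY (a * b) (a * b * (a + b)) := by
      rw [e4_neg]
      intro h
      apply hy
      linarith
    have hsl : (E4 a b).toAffine.slope (a * b) (a * b) (a * b * (a + b)) (a * b * (a + b)) =
        a + b := by
      rw [Affine.slope_of_Y_ne rfl hne, e4_neg]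
      simp only [E4]
      rw [div_eq_iff (by intro h; apply hy; linarith)]
      ring
    rw [hPd, Affine.Point.add_self_of_Y_ne hne, hRd, Affine.Point.some.injEq, hsl]
    constructor
    · simp only [Affine.addX, E4]; ring
    · simp only [Affine.addY, Affine.negAddY, Affine.negY, Affine.addX, E4]; ring
  have hR0 : R ≠ 0 := Affine.Point.some_ne_zero hR
  have hQ0 : Q ≠ 0 := Affine.Point.some_ne_zero hQ
  have hRQ : R ≠ Q := by
    rw [hRd, hQd, Ne, Affine.Point.some.injEq]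
    rintro ⟨h, -⟩
    have h3 : a ^ 2 = 0 := by linarith
    exact ha (pow_eq_zero_iff (by norm_num) |>.1 h3)
  have h2P : 2 • P = R := by rw [two_nsmul, hPP]
  have h4P : 4 • P = 0 := by
    have : (4 : ℕ) • P = 2 • (2 • P) := by rw [← mul_nsmul]
    rw [this, h2P, two_nsmul, hRR]
  have hoP : addOrderOf P = 4 := by
    have := addOrderOf_eq_prime_pow (x := P) (p := 2) (n := 1) (by simp [h2P, hR0])
      h4P
    simpa using this
  have hoQ : addOrderOf Q = 2 := by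
    apply addOrderOf_eq_prime
    · rw [two_nsmul, hQQ]
    · exact hQ0
  refine ⟨P, Q, hoP, hoQ, ?_⟩
  intro hmem
  obtain ⟨k, hk⟩ := AddSubgroup.mem_zmultiples_iff.1 hmem
  have h4 : ((addOrderOf P : ℕ) : ℤ) ∣ 2 * k := by
    rw [addOrderOf_dvd_iff_zsmul_eq_zero, mul_zsmul, hk, two_zsmul, hQQ]
  rw [hoP] at h4
  obtain ⟨j, hj⟩ : ∃ j, k = 2 * j := by
    obtain ⟨l, hl⟩ := h4
    exact ⟨l, by push_cast at hl; linarith⟩
  have hkj : k • P = j • R := by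
    rw [hj, mul_comm, mul_zsmul, two_zsmul, hPP]
  rcases Int.even_or_odd j with ⟨i, hi⟩ | ⟨i, hi⟩
  · apply hQ0
    rw [← hk, hkj, hi, ← two_mul, mul_comm, mul_zsmul, two_zsmul, hRR, zsmul_zero]
  · apply hRQ
    rw [← hk, hkj, hi, add_zsmul, one_zsmul, mul_comm, mul_zsmul, two_zsmul, hRR, zsmul_zero,
      zero_add]

/-- every curve with a subgroup `Z/2 x Z/4` of rational points -/
lemma e4_of {A B : ℤ} (hD : 4 * A ^ 3 + 27 * B ^ 2 ≠ 0) (hT : HasT 4 (Sh A B)) :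
    ∃ a b : ℤ, IsCoprime a b ∧ a ≠ 0 ∧ 0 < b ∧ a ^ 2 ≠ b ^ 2 ∧ ∃ C : VariableChange ℚ,
      C • Sh A B = E4 a b := by
  obtain ⟨⟨a, b⟩, g, e, hg, hcop, ha, hb, hab, h1, h2, h3⟩ := Pool.Agent.W605.RT.core hD hT
  dsimp only at hcop ha hb hab h1 h2 h3
  have key : ∀ a b : ℤ, 3 * e = g ^ 2 * (a ^ 2 + b ^ 2) →
      3 * A = -(g ^ 4 * (a ^ 4 - a ^ 2 * b ^ 2 + b ^ 4)) →
      27 * B = g ^ 6 * ((a ^ 2 + b ^ 2) * (2 * a ^ 2 - b ^ 2) * (a ^ 2 - 2 * b ^ 2)) →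
      ∃ C : VariableChange ℚ, C • Sh A B = E4 a b := by
    intro a b h1 h2 h3
    have hg0 : (g : ℚ) ≠ 0 := by exact_mod_cast hg.ne'
    have q1 : 3 * (e : ℚ) = g ^ 2 * (a ^ 2 + b ^ 2) := by exact_mod_cast h1
    have q2 : 3 * (A : ℚ) = -(g ^ 4 * (a ^ 4 - a ^ 2 * b ^ 2 + b ^ 4)) := by exact_mod_cast h2
    have q3 : 27 * (B : ℚ) = g ^ 6 * ((a ^ 2 + b ^ 2) * (2 * a ^ 2 - b ^ 2) *
      (a ^ 2 - 2 * b ^ 2)) := by exact_mod_cast h3
    have qe : (e : ℚ) = g ^ 2 * (a ^ 2 + b ^ 2) / 3 := by linarith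
    have qA : (A : ℚ) = -(g ^ 4 * (a ^ 4 - a ^ 2 * b ^ 2 + b ^ 4)) / 3 := by linarith
    have qB : (B : ℚ) = g ^ 6 * ((a ^ 2 + b ^ 2) * (2 * a ^ 2 - b ^ 2) *
      (a ^ 2 - 2 * b ^ 2)) / 27 := by linarith
    refine ⟨⟨Units.mk0 (g : ℚ) hg0, e, 0, 0⟩, ?_⟩
    have hu : ((Units.mk0 (g : ℚ) hg0)⁻¹ : ℚˣ).val = (g : ℚ)⁻¹ := rfl
    ext
    · simp [E4, Sh, WeierstrassCurve.variableChange_a₁]
    · simp only [E4, Sh, WeierstrassCurve.variableChange_a₂, hu]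
      rw [qe]
      field_simp
      ring
    · simp [E4, Sh, WeierstrassCurve.variableChange_a₃]
    · simp only [E4, Sh, WeierstrassCurve.variableChange_a₄, hu]
      rw [qe, qA]
      field_simp
      ring
    · simp only [E4, Sh, WeierstrassCurve.variableChange_a₆, hu]
      rw [qe, qA, qB]
      field_simp
      ring
  rcases lt_or_gt_of_ne hb with hb' | hb'
  · refine ⟨-a, -b, hcop.neg_neg, neg_ne_zero.2 ha, by linarith, by rwa [neg_sq, neg_sq], ?_⟩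
    refine key (-a) (-b) ?_ ?_ ?_
    · rw [h1]; ring
    · rw [h2]; ring
    · rw [h3]; ring
  · exact ⟨a, b, hcop, ha, hb', hab, key a b h1 h2 h3⟩

end Pool.Agent.T6.H30.UC
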